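import Mathlib

namespace Pool.Agent.Results.MP_633d19_co.SmallDegree

/-- A loopless multigraph with vertex type `V` and edge type `E`: every edge has an
unordered pair of distinct ends; parallel edges are allowed. -/
structure MGraph (V E : Type) where
  ends : E → Sym2 V
  loopless : ∀ e, ¬ (ends e).IsDiag

namespace MGraph

variable {V E : Type}

/-- Degree of a vertex, parallel edges counted separately. -/
noncomputable def degree (G : MGraph V E) (v : V) : ℕ := Nat.card {e : E // v ∈ G.ends e}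

/-- Number of edges joining `u` and `v`. -/
noncomputable def mult (G : MGraph V E) (u v : V) : ℕ := Nat.card {e : E // G.ends e = s(u, v)}

/-- `Δ(G) = Δ`. -/
def HasMaxDegree (G : MGraph V E) (Δ : ℕ) : Prop :=
  (∀ v, G.degree v ≤ Δ) ∧ ∃ v, G.degree v = Δ

/-- `μ(G) = μ`. -/
def HasMaxMult (G : MGraph V E) (μ : ℕ) : Prop :=
  (∀ u v, u ≠ v → G.mult u v ≤ μ) ∧ ∃ u v, u ≠ v ∧ G.mult u v = μ

/-- `G` contains a cycle with `l` distinct vertices `v 0, ..., v (l-1)`, consecutive ones
(cyclically) being adjacent. -/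
def HasCycle (G : MGraph V E) (l : ℕ) : Prop :=
  ∃ v : ℕ → V, (∀ i < l, ∀ j < l, v i = v j → i = j) ∧
    ∀ i < l, ∃ e, G.ends e = s(v i, v ((i + 1) % l))

/-- The girth of `G` is `g`: the least `l ≥ 3` such that `G` contains a cycle of length `l`. -/
def HasGirth (G : MGraph V E) (g : ℕ) : Prop := IsLeast {l | 3 ≤ l ∧ G.HasCycle l} g

/-- `G` has a proper edge colouring with `k` colours. -/
def Colorable (G : MGraph V E) (k : ℕ) : Prop :=
  ∃ c : E → Fin k, ∀ e f, e ≠ f → (∃ v, v ∈ G.ends e ∧ v ∈ G.ends f) → c e ≠ c f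

/-- The chromatic index of `G` is `k`. -/
def HasChromaticIndex (G : MGraph V E) (k : ℕ) : Prop := IsLeast {j | G.Colorable j} k

/-- A colouring of some of the edges (none means uncoloured) is proper. -/
def PP (G : MGraph V E) {k : ℕ} (c : E → Option (Fin k)) : Prop :=
  ∀ e f v a, v ∈ G.ends e → v ∈ G.ends f → c e = some a → c f = some a → e = f

/-- Colour `a` is missing at `v`. -/
def Miss (G : MGraph V E) {k : ℕ} (c : E → Option (Fin k)) (v : V) (a : Fin k) : Prop :=
  ∀ e, v ∈ G.ends e → c e ≠ some a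

lemma colorable_of_total (G : MGraph V E) {k : ℕ} (c : E → Option (Fin k)) (hc : G.PP c)
    (ht : ∀ e, c e ≠ none) : G.Colorable k := by
  have h : ∀ e, ∃ a, c e = some a := fun e => Option.ne_none_iff_exists'.mp (ht e)
  choose d hd using h
  refine ⟨d, fun e f hef ⟨v, hv, hw⟩ h => hef ?_⟩
  exact hc e f v (d e) hv hw (hd e) (by rw [hd f, h])

/-- the neighbour of `v` along the edge of colour `a`, or `v` if `a` is missing at `v` -/
noncomputable def nb (G : MGraph V E) {k : ℕ} (c : E → Option (Fin k)) (a : Fin k) (v : V) : V := by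
  classical
  exact if h : ∃ w, ∃ e, c e = some a ∧ G.ends e = s(v, w) then h.choose else v

lemma nb_eq (G : MGraph V E) {k : ℕ} {c : E → Option (Fin k)} (hc : G.PP c) {a : Fin k} {v w : V}
    {e : E} (h1 : c e = some a) (h2 : G.ends e = s(v, w)) : G.nb c a v = w := by
  classical
  have h : ∃ w, ∃ e, c e = some a ∧ G.ends e = s(v, w) := ⟨w, e, h1, h2⟩
  unfold nb
  rw [dif_pos h]
  obtain ⟨e', h3, h4⟩ := h.choose_spec
  have : e = e' := hc e e' v a (by rw [h2]; simp) (by rw [h4]; simp) h1 h3
  subst this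
  rw [h2] at h4
  have := Sym2.congr_right.mp h4
  exact this.symm

lemma nb_miss (G : MGraph V E) {k : ℕ} {c : E → Option (Fin k)} {a : Fin k} {v : V}
    (h : G.Miss c v a) : G.nb c a v = v := by
  classical
  unfold nb
  rw [dif_neg]
  rintro ⟨w, e, h1, h2⟩
  exact h e (by rw [h2]; simp) h1

lemma exists_of_not_miss (G : MGraph V E) {k : ℕ} {c : E → Option (Fin k)} (hc : G.PP c)
    {a : Fin k} {v : V}
    (h : ¬ G.Miss c v a) : ∃ e, c e = some a ∧ G.ends e = s(v, G.nb c a v) := by
  unfold Miss at h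
  push Not at h
  obtain ⟨e, he, h1⟩ := h
  obtain ⟨w, hw⟩ := Sym2.mem_iff_exists.mp he
  exact ⟨e, h1, by rw [G.nb_eq hc h1 hw, hw]⟩

lemma miss_iff (G : MGraph V E) {k : ℕ} {c : E → Option (Fin k)} (hc : G.PP c) {a : Fin k} {v : V} :
    G.nb c a v = v ↔ G.Miss c v a := by
  constructor
  · intro h
    by_contra hm
    obtain ⟨e, _, h2⟩ := G.exists_of_not_miss hc hm
    rw [h] at h2
    exact G.loopless e (by rw [h2]; simp)
  · exact G.nb_miss

lemma nb_invol (G : MGraph V E) {k : ℕ} {c : E → Option (Fin k)} (hc : G.PP c) (a : Fin k) :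
    Function.Involutive (G.nb c a) := by
  intro v
  by_cases h : G.Miss c v a
  · rw [G.nb_miss h, G.nb_miss h]
  · obtain ⟨e, h1, h2⟩ := G.exists_of_not_miss hc h
    exact G.nb_eq hc h1 (by rw [h2, Sym2.eq_swap])

/-- Exchange of two colours on a closed set of vertices. -/
lemma swap_on (G : MGraph V E) {k : ℕ} {c : E → Option (Fin k)} (hc : G.PP c) (a b : Fin k)
    (K : Set V)
    (hK : ∀ e u w, u ∈ G.ends e → w ∈ G.ends e → (c e = some a ∨ c e = some b) → u ∈ K → w ∈ K) :
    ∃ c' : E → Option (Fin k), G.PP c' ∧ (∀ e, c' e = none ↔ c e = none) ∧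
      (∀ e x, x ≠ a → x ≠ b → (c' e = some x ↔ c e = some x)) ∧
      (∀ v ∈ K, ∀ x, G.Miss c v x → G.Miss c' v (Equiv.swap a b x)) ∧
      (∀ v, v ∉ K → ∀ x, G.Miss c v x → G.Miss c' v x) := by
  classical
  have key1 : ∀ e v, v ∈ G.ends e → v ∉ K →
      (if ∃ u ∈ G.ends e, u ∈ K then (c e).map (Equiv.swap a b) else c e) = c e := by
    intro e v hv hvK
    split_ifs with h
    · obtain ⟨u, hu, huK⟩ := h
      rcases hce : c e with _ | x
      · rfl
      · have h1 : x ≠ a := by
          rintro rfl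
          exact hvK (hK e u v hu hv (Or.inl hce) huK)
        have h2 : x ≠ b := by
          rintro rfl
          exact hvK (hK e u v hu hv (Or.inr hce) huK)
        simp [Equiv.swap_apply_of_ne_of_ne h1 h2]
    · rfl
  have key2 : ∀ e v, v ∈ G.ends e → v ∈ K →
      (if ∃ u ∈ G.ends e, u ∈ K then (c e).map (Equiv.swap a b) else c e) =
        (c e).map (Equiv.swap a b) := by
    intro e v hv hvK
    rw [if_pos ⟨v, hv, hvK⟩]
  have map_some : ∀ (o : Option (Fin k)) x, o.map (Equiv.swap a b) = some x ↔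
      o = some (Equiv.swap a b x) := by
    intro o x
    rcases o with _ | y
    · simp
    · simp only [Option.map_some, Option.some.injEq]
      constructor
      · rintro rfl
        simp
      · rintro rfl
        simp
  refine ⟨fun e => if ∃ u ∈ G.ends e, u ∈ K then (c e).map (Equiv.swap a b) else c e,
    ?_, ?_, ?_, ?_, ?_⟩
  · intro e f v x he hf h1 h2
    by_cases hv : v ∈ K
    · simp only [key2 e v he hv, map_some] at h1
      simp only [key2 f v hf hv, map_some] at h2
      exact hc e f v _ he hf h1 h2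
    · simp only [key1 e v he hv] at h1
      simp only [key1 f v hf hv] at h2
      exact hc e f v _ he hf h1 h2
  · intro e
    dsimp only
    split_ifs
    · simp
    · rfl
  · intro e x h1 h2
    dsimp only
    split_ifs
    · rw [map_some, Equiv.swap_apply_of_ne_of_ne h1 h2]
    · rfl
  · intro v hv x hx e he h
    simp only [key2 e v he hv, map_some, Equiv.swap_apply_self] at h
    exact hx e he h
  · intro v hv x hx e he h
    simp only [key1 e v he hv] at h
    exact hx e he h

end MGraph


section Invol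

variable {V : Type}

lemma dih (s t : Equiv.Perm V) (hs : s * s = 1) (ht : t * t = 1) (n : ℤ) :
    s * (s * t) ^ n = (s * t) ^ (-n) * s := by
  have hs' : s⁻¹ = s := inv_eq_of_mul_eq_one_left hs
  have ht' : t⁻¹ = t := inv_eq_of_mul_eq_one_left ht
  have h1 : s * (s * t) * s⁻¹ = (s * t)⁻¹ := by
    rw [mul_inv_rev, hs', ht', ← mul_assoc, hs, one_mul]
  have h2 : s * (s * t) ^ n * s⁻¹ = ((s * t)⁻¹) ^ n := by
    rw [← h1, conj_zpow]
  rw [zpow_neg, ← inv_zpow, ← h2]
  simp [mul_assoc]

lemma dih_s (s t : Equiv.Perm V) (hs : s * s = 1) (ht : t * t = 1) (v : V) (hv : s v = v) (n : ℤ) :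
    s (((s * t) ^ n) v) = ((s * t) ^ (-n)) v := by
  have h := congrArg (fun p : Equiv.Perm V => p v) (dih s t hs ht n)
  simpa [Equiv.Perm.mul_apply, hv] using h

lemma dih_t (s t : Equiv.Perm V) (hs : s * s = 1) (ht : t * t = 1) (v : V) (hv : s v = v) (n : ℤ) :
    t (((s * t) ^ n) v) = ((s * t) ^ (-n - 1)) v := by
  have h1 : t = s * (s * t) := by rw [← mul_assoc, hs, one_mul]
  have h2 : t (((s * t) ^ n) v) = s (((s * t) ^ (n + 1)) v) := by
    rw [zpow_add_one]
    have h3 : (s * t) ^ n * (s * t) = (s * t) * (s * t) ^ n := by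
      rw [← zpow_add_one, add_comm, zpow_one_add]
    rw [h3]
    simp only [Equiv.Perm.mul_apply]
    have h4 : s (s (t (((s * t) ^ n) v))) = t (((s * t) ^ n) v) := by
      have := congrArg (fun p : Equiv.Perm V => p (t (((s * t) ^ n) v))) hs
      simpa using this
    exact h4.symm
  rw [h2, dih_s s t hs ht v hv]
  congr 2
  ring

lemma per_iff [Finite V] (r : Equiv.Perm V) (v : V) :
    ∃ N : ℕ, 0 < N ∧ ∀ a b : ℤ, (r ^ a) v = (r ^ b) v ↔ (N : ℤ) ∣ a - b := by
  refine ⟨Function.minimalPeriod (r • ·) v, ?_, ?_⟩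
  · apply Function.minimalPeriod_pos_of_mem_periodicPts
    refine ⟨orderOf r, orderOf_pos r, ?_⟩
    have : (fun x => r • x)^[orderOf r] v = v := by
      rw [smul_iterate, pow_orderOf_eq_one]
      simp
    exact this
  · intro a b
    rw [← MulAction.zpow_smul_eq_iff_minimalPeriod_dvd]
    rw [Equiv.Perm.smul_def, sub_eq_neg_add, zpow_add, Equiv.Perm.mul_apply, zpow_neg,
      Equiv.Perm.inv_eq_iff_eq]

lemma three_fixed [Finite V] (s t : Equiv.Perm V) (hs : s * s = 1) (ht : t * t = 1) (v u w : V)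
    (hv : s v = v) (n m : ℤ) (hu : u = ((s * t) ^ n) v) (hw : w = ((s * t) ^ m) v)
    (hu' : s u = u ∨ t u = u) (hw' : s w = w ∨ t w = w) : v = u ∨ v = w ∨ u = w := by
  obtain ⟨N, hN, hper⟩ := per_iff (s * t) v
  have h1 : ∀ n : ℤ, s (((s * t) ^ n) v) = ((s * t) ^ n) v → (N : ℤ) ∣ 2 * n := by
    intro n h
    rw [dih_s s t hs ht v hv, hper] at h
    have : 2 * n = -(-n - n) := by ring
    rw [this]
    exact (dvd_neg).mpr h
  have h2 : ∀ n : ℤ, t (((s * t) ^ n) v) = ((s * t) ^ n) v → (N : ℤ) ∣ 2 * n + 1 := by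
    intro n h
    rw [dih_t s t hs ht v hv, hper] at h
    have : 2 * n + 1 = -(-n - 1 - n) := by ring
    rw [this]
    exact (dvd_neg).mpr h
  have hu2 : (N : ℤ) ∣ 2 * n ∨ (N : ℤ) ∣ 2 * n + 1 := by
    rw [hu] at hu'
    exact hu'.imp (h1 n) (h2 n)
  have hw2 : (N : ℤ) ∣ 2 * m ∨ (N : ℤ) ∣ 2 * m + 1 := by
    rw [hw] at hw'
    exact hw'.imp (h1 m) (h2 m)
  have e1 : (N : ℤ) ∣ n → v = u := by
    intro h
    have := (hper n 0).mpr (by simpa using h)
    rw [hu, this]; simp
  have e2 : (N : ℤ) ∣ m → v = w := by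
    intro h
    have := (hper m 0).mpr (by simpa using h)
    rw [hw, this]; simp
  have e3 : (N : ℤ) ∣ n - m → u = w := by
    intro h
    have := (hper n m).mpr h
    rw [hu, hw, this]
  rcases hu2 with ⟨a, ha⟩ | ⟨a, ha⟩ <;> rcases hw2 with ⟨b, hb⟩ | ⟨b, hb⟩
  · rcases Int.even_or_odd' a with ⟨a', ha' | ha'⟩
    · left; apply e1; refine ⟨a', ?_⟩; rw [ha'] at ha; linarith
    · rcases Int.even_or_odd' b with ⟨b', hb' | hb'⟩
      · right; left; apply e2; refine ⟨b', ?_⟩; rw [hb'] at hb; linarith
      · right; right; apply e3; refine ⟨a' - b', ?_⟩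
        rw [ha'] at ha; rw [hb'] at hb; linarith
  · left; apply e1
    refine ⟨n * b - m * a, ?_⟩
    linear_combination n * hb - m * ha
  · right; left; apply e2
    refine ⟨m * a - n * b, ?_⟩
    linear_combination m * ha - n * hb
  · right; right; apply e3
    refine ⟨(n - m) * a - n * (a - b), ?_⟩
    linear_combination (n - m) * ha - n * (ha - hb)

end Invol

namespace MGraph

variable {V E : Type}

/-- the involution of a colour -/
noncomputable def iv (G : MGraph V E) {k : ℕ} {c : E → Option (Fin k)} (hc : G.PP c) (a : Fin k) :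
    Equiv.Perm V := (G.nb_invol hc a).toPerm

lemma iv_apply (G : MGraph V E) {k : ℕ} {c : E → Option (Fin k)} (hc : G.PP c) (a : Fin k) (v : V) :
    G.iv hc a v = G.nb c a v := rfl

lemma iv_sq (G : MGraph V E) {k : ℕ} {c : E → Option (Fin k)} (hc : G.PP c) (a : Fin k) :
    G.iv hc a * G.iv hc a = 1 := by
  ext v
  simp [iv_apply, G.nb_invol hc a v]

/-- Exchange of `a` and `b` on the component of `x`, where `a` is missing at `x`. -/
lemma swap_comp (G : MGraph V E) {k : ℕ} {c : E → Option (Fin k)} (hc : G.PP c) (a b : Fin k)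
    (x : V) (hx : G.Miss c x a) :
    ∃ c' : E → Option (Fin k), G.PP c' ∧ (∀ e, c' e = none ↔ c e = none) ∧
      (∀ e y, y ≠ a → y ≠ b → (c' e = some y ↔ c e = some y)) ∧ G.Miss c' x b ∧
      (∀ v, (¬ ∃ n : ℤ, v = ((G.iv hc a * G.iv hc b) ^ n) x) →
        ∀ y, G.Miss c v y → G.Miss c' v y) := by
  have hs := G.iv_sq hc a
  have ht := G.iv_sq hc b
  have hsx : G.iv hc a x = x := by rw [iv_apply]; exact G.nb_miss hx
  obtain ⟨c', h1, h2, h3, h4, h5⟩ := G.swap_on hc a b
    {v | ∃ n : ℤ, v = ((G.iv hc a * G.iv hc b) ^ n) x} (by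
      rintro e u w hu hw hcol ⟨n, hn⟩
      by_cases huw : w = u
      · exact ⟨n, by rw [huw, hn]⟩
      have hends : G.ends e = s(u, w) := by
        exact (Sym2.mem_and_mem_iff (Ne.symm huw)).mp ⟨hu, hw⟩
      rcases hcol with hcol | hcol
      · refine ⟨-n, ?_⟩
        rw [← dih_s _ _ hs ht x hsx, ← hn, iv_apply, G.nb_eq hc hcol hends]
      · refine ⟨-n - 1, ?_⟩
        rw [← dih_t _ _ hs ht x hsx, ← hn, iv_apply, G.nb_eq hc hcol hends])
  refine ⟨c', h1, h2, h3, ?_, fun v hv y => h5 v hv y⟩
  have := h4 x ⟨0, by simp⟩ a hx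
  simpa using this

lemma kempe_three [Finite V] (G : MGraph V E) {k : ℕ} {c : E → Option (Fin k)} (hc : G.PP c)
    (a b : Fin k) (x u w : V) (hx : G.Miss c x a) (hu : G.Miss c u b) (hw : G.Miss c w b)
    (hxu : x ≠ u) (hxw : x ≠ w) (huw : u ≠ w) :
    ∃ c' : E → Option (Fin k), G.PP c' ∧ (∀ e, c' e = none ↔ c e = none) ∧
      (∀ e y, y ≠ a → y ≠ b → (c' e = some y ↔ c e = some y)) ∧ G.Miss c' x b ∧
      (G.Miss c' u b ∨ G.Miss c' w b) := by
  obtain ⟨c', h1, h2, h3, h4, h5⟩ := G.swap_comp hc a b x hx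
  refine ⟨c', h1, h2, h3, h4, ?_⟩
  by_cases h6 : ∃ n : ℤ, u = ((G.iv hc a * G.iv hc b) ^ n) x
  · by_cases h7 : ∃ n : ℤ, w = ((G.iv hc a * G.iv hc b) ^ n) x
    · exfalso
      obtain ⟨n, hn⟩ := h6
      obtain ⟨m, hm⟩ := h7
      have := three_fixed _ _ (G.iv_sq hc a) (G.iv_sq hc b) x u w
        (by rw [iv_apply]; exact G.nb_miss hx) n m hn hm
        (Or.inr (by rw [iv_apply]; exact G.nb_miss hu))
        (Or.inr (by rw [iv_apply]; exact G.nb_miss hw))
      rcases this with h | h | h
      · exact hxu h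
      · exact hxw h
      · exact huw h
    · exact Or.inr (h5 w h7 b hw)
  · exact Or.inl (h5 u h6 b hu)

end MGraph

namespace MGraph

variable {V E : Type}

/-- cyclic successor below `l` -/
def nx (l i : ℕ) : ℕ := if i + 1 = l then 0 else i + 1

lemma nx_lt {l i : ℕ} (hi : i < l) : nx l i < l := by
  unfold nx; split_ifs <;> omega

lemma nx_inj {l i j : ℕ} (h : nx l i = nx l j) : i = j := by
  unfold nx at h; split_ifs at h <;> omega

lemma mod_eq_nx {l i : ℕ} (hi : i < l) : (i + 1) % l = nx l i := by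
  unfold nx
  split_ifs with h
  · rw [h, Nat.mod_self]
  · exact Nat.mod_eq_of_lt (by omega)

/-- An uncoloured odd cycle all of whose vertices miss the two colours `α`, `β`. -/
structure State (G : MGraph V E) {k : ℕ} (l : ℕ) (v : ℕ → V) (f : ℕ → E) (α β : Fin k)
    (c : E → Option (Fin k)) : Prop where
  pp : G.PP c
  inj : ∀ i < l, ∀ j < l, v i = v j → i = j
  ed : ∀ i < l, G.ends (f i) = s(v i, v (nx l i))
  none_iff : ∀ e, c e = none ↔ ∃ i < l, e = f i
  ma : ∀ i < l, G.Miss c (v i) α
  mb : ∀ i < l, G.Miss c (v i) β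
  ne : α ≠ β

lemma edge_inj (G : MGraph V E) {l : ℕ} {v : ℕ → V} {f : ℕ → E} (hl : 3 ≤ l)
    (inj : ∀ i < l, ∀ j < l, v i = v j → i = j)
    (ed : ∀ i < l, G.ends (f i) = s(v i, v (nx l i))) :
    ∀ i < l, ∀ j < l, f i = f j → i = j := by
  intro i hi j hj h
  have h1 := ed i hi
  rw [h, ed j hj, Sym2.eq_iff] at h1
  rcases h1 with ⟨h1, _⟩ | ⟨h1, h2⟩
  · exact (inj j hj i hi h1).symm
  · have h3 := inj _ hj _ (nx_lt hi) h1
    have h4 := inj _ (nx_lt hj) _ hi h2
    unfold nx at h3 h4
    split_ifs at h3 h4 <;> omega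

lemma State.adj {G : MGraph V E} {k l : ℕ} {v : ℕ → V} {f : ℕ → E} {α β : Fin k}
    {c : E → Option (Fin k)} (h : G.State l v f α β c) (hl : 3 ≤ l) (hodd : l % 2 = 1)
    (hG : ¬ G.Colorable k) {i : ℕ} (hi : i + 1 < l) {γ : Fin k} (hγα : γ ≠ α) (hγβ : γ ≠ β)
    (h1 : G.Miss c (v i) γ) (h2 : G.Miss c (v (i + 1)) γ) : False := by
  classical
  have finj := G.edge_inj hl h.inj h.ed
  let code : ℕ → ℕ := fun j => if j = i then 2 else
    if (i < j ∧ (j - i) % 2 = 1) ∨ (j < i ∧ (i - j) % 2 = 0) then 0 else 1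
  have code_ne : ∀ j < l, code j ≠ code (nx l j) := by
    intro j hj
    have hcase : (j + 1 = l ∧ nx l j = 0) ∨ (j + 1 < l ∧ nx l j = j + 1) := by
      unfold nx
      split_ifs <;> omega
    rcases hcase with ⟨h3, h4⟩ | ⟨h3, h4⟩
    · rw [h4]
      simp only [code]
      split_ifs <;> omega
    · rw [h4]
      simp only [code]
      split_ifs <;> omega
  have code_lt : ∀ j, code j < 3 := by
    intro j
    simp only [code]
    split_ifs <;> omega
  have code_two : ∀ j, code j = 2 → j = i := by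
    intro j hj2
    simp only [code] at hj2
    split_ifs at hj2 <;> omega
  let C : ℕ → Fin k := fun n => if n = 2 then γ else if n = 0 then α else β
  have C_inj : ∀ m n, m < 3 → n < 3 → C m = C n → m = n := by
    intro m n hm hn hmn
    have hne := h.ne
    interval_cases m <;> interval_cases n <;> simp [C] at hmn ⊢ <;>
      first | exact hne hmn | exact hne hmn.symm | exact hγα hmn | exact hγα hmn.symm |
        exact hγβ hmn | exact hγβ hmn.symm
  let d : E → Option (Fin k) := fun e =>
    if h : ∃ j, j < l ∧ e = f j then some (C (code h.choose)) else c e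
  have d1 : ∀ j < l, d (f j) = some (C (code j)) := by
    intro j hj
    have hh : ∃ j', j' < l ∧ f j = f j' := ⟨j, hj, rfl⟩
    simp only [d]
    rw [dif_pos hh]
    have := finj _ hj _ hh.choose_spec.1 hh.choose_spec.2
    rw [← this]
  have d2 : ∀ e, (¬ ∃ j, j < l ∧ e = f j) → d e = c e := by
    intro e he
    simp only [d]
    rw [dif_neg he]
  have hmiss : ∀ j < l, ∀ u, u ∈ G.ends (f j) → G.Miss c u (C (code j)) := by
    intro j hj u hu
    rw [h.ed j hj, Sym2.mem_iff] at hu
    have hc3 := code_lt j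
    rcases Nat.lt_or_ge (code j) 2 with hc | hc
    · have : code j = 0 ∨ code j = 1 := by omega
      rcases this with hc | hc
      · have : C (code j) = α := by simp [C, hc]
        rw [this]
        rcases hu with rfl | rfl
        · exact h.ma j hj
        · exact h.ma _ (nx_lt hj)
      · have : C (code j) = β := by simp [C, hc]
        rw [this]
        rcases hu with rfl | rfl
        · exact h.mb j hj
        · exact h.mb _ (nx_lt hj)
    · have hc : code j = 2 := by omega
      have hji := code_two j hc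
      have : C (code j) = γ := by simp [C, hc]
      rw [this]
      subst hji
      have hnx : nx l j = j + 1 := by unfold nx; split_ifs <;> omega
      rw [hnx] at hu
      rcases hu with rfl | rfl
      · exact h1
      · exact h2
  apply hG
  apply G.colorable_of_total d
  · intro e e' u a he he' hde hde'
    by_cases hce : ∃ j, j < l ∧ e = f j
    · obtain ⟨j, hj, rfl⟩ := hce
      by_cases hce' : ∃ j, j < l ∧ e' = f j
      · obtain ⟨j', hj', rfl⟩ := hce'
        rw [d1 j hj] at hde
        rw [d1 j' hj'] at hde'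
        have hcc : code j = code j' := by
          apply C_inj _ _ (code_lt j) (code_lt j')
          have := hde.trans hde'.symm
          exact Option.some.inj this
        rw [h.ed j hj, Sym2.mem_iff] at he
        rw [h.ed j' hj', Sym2.mem_iff] at he'
        rcases he with he | he <;> rcases he' with he' | he'
        · rw [h.inj j hj j' hj' (he.symm.trans he')]
        · have := h.inj j hj _ (nx_lt hj') (he.symm.trans he')
          exact absurd (by rw [← this, hcc]) (code_ne j' hj')
        · have := h.inj _ (nx_lt hj) j' hj' (he.symm.trans he')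
          exact absurd (by rw [this, hcc]) (code_ne j hj)
        · have := h.inj _ (nx_lt hj) _ (nx_lt hj') (he.symm.trans he')
          rw [nx_inj this]
      · exfalso
        rw [d2 e' hce'] at hde'
        rw [d1 j hj] at hde
        have := hmiss j hj u he e' he'
        rw [hde', ← hde] at this
        exact this rfl
    · rw [d2 e hce] at hde
      by_cases hce' : ∃ j, j < l ∧ e' = f j
      · exfalso
        obtain ⟨j', hj', rfl⟩ := hce'
        rw [d1 j' hj'] at hde'
        have := hmiss j' hj' u he' e he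
        rw [hde, ← hde'] at this
        exact this rfl
      · rw [d2 e' hce'] at hde'
        exact h.pp e e' u a he he' hde hde'
  · intro e
    by_cases hce : ∃ j, j < l ∧ e = f j
    · obtain ⟨j, hj, rfl⟩ := hce
      rw [d1 j hj]
      simp
    · rw [d2 e hce]
      intro hn
      obtain ⟨j, hj, hej⟩ := (h.none_iff e).mp hn
      exact hce ⟨j, hj, hej⟩

/-- The colours other than `α`, `β` missing at `u`. -/
noncomputable def ms (G : MGraph V E) {k : ℕ} (c : E → Option (Fin k)) (α β : Fin k) (u : V) :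
    Finset (Fin k) := by
  classical exact Finset.univ.filter (fun a => a ≠ α ∧ a ≠ β ∧ G.Miss c u a)

lemma mem_ms (G : MGraph V E) {k : ℕ} {c : E → Option (Fin k)} {α β : Fin k} {u : V} {a : Fin k} :
    a ∈ G.ms c α β u ↔ a ≠ α ∧ a ≠ β ∧ G.Miss c u a := by
  classical
  simp [ms]

lemma degree_eq [Fintype E] [DecidableEq E] (G : MGraph V E) (u : V)
    [DecidablePred fun e => u ∈ G.ends e] :
    G.degree u = (Finset.univ.filter (fun e => u ∈ G.ends e)).card := by
  unfold degree
  rw [Nat.card_eq_fintype_card, Fintype.card_subtype]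

lemma State.card_ms [Finite E] {G : MGraph V E} {k l : ℕ} {v : ℕ → V} {f : ℕ → E} {α β : Fin k}
    {c : E → Option (Fin k)} (h : G.State l v f α β c) (hl : 3 ≤ l) {Δ : ℕ}
    (hdeg : ∀ u, G.degree u ≤ Δ) {i : ℕ} (hi : i < l) : k ≤ (G.ms c α β (v i)).card + Δ := by
  classical
  have := Fintype.ofFinite E
  have finj := G.edge_inj hl h.inj h.ed
  obtain ⟨j, hj, hji⟩ : ∃ j, j < l ∧ nx l j = i := by
    rcases Nat.eq_zero_or_pos i with h0 | h0
    · exact ⟨l - 1, by omega, by unfold nx; split_ifs <;> omega⟩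
    · exact ⟨i - 1, by omega, by unfold nx; split_ifs <;> omega⟩
  have hij : i ≠ j := by
    rintro rfl
    unfold nx at hji
    split_ifs at hji <;> omega
  set A := Finset.univ.filter (fun e => v i ∈ G.ends e) with hA
  set B := A.filter (fun e => c e ≠ none) with hB
  have h1 : B.card + 2 ≤ A.card := by
    have h2 : ({f i, f j} : Finset E).card = 2 := by
      rw [Finset.card_pair]
      intro hf
      exact hij (finj i hi j hj hf)
    have h3 : B ∪ {f i, f j} ⊆ A := by
      intro e he
      rw [Finset.mem_union] at he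
      rcases he with he | he
      · exact (Finset.mem_filter.mp he).1
      · rw [hA, Finset.mem_filter]
        refine ⟨Finset.mem_univ _, ?_⟩
        simp only [Finset.mem_insert, Finset.mem_singleton] at he
        rcases he with rfl | rfl
        · rw [h.ed i hi]; simp
        · rw [h.ed j hj, hji]; simp
    have h4 : Disjoint B {f i, f j} := by
      rw [Finset.disjoint_left]
      intro e he he'
      have h5 := (Finset.mem_filter.mp he).2
      apply h5
      rw [h.none_iff]
      simp only [Finset.mem_insert, Finset.mem_singleton] at he'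
      rcases he' with rfl | rfl
      · exact ⟨i, hi, rfl⟩
      · exact ⟨j, hj, rfl⟩
    rw [← h2, ← Finset.card_union_of_disjoint h4]
    exact Finset.card_le_card h3
  have h2 : A.card ≤ Δ := by
    rw [hA, ← degree_eq]
    exact hdeg _
  set P := Finset.univ.filter (fun a : Fin k => ¬ G.Miss c (v i) a) with hP
  have h3 : P.card ≤ B.card := by
    have : P ⊆ B.image (fun e => (c e).getD α) := by
      intro a ha
      rw [hP, Finset.mem_filter] at ha
      have ha := ha.2
      unfold Miss at ha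
      push Not at ha
      obtain ⟨e, he, hea⟩ := ha
      rw [Finset.mem_image]
      refine ⟨e, ?_, by simp [hea]⟩
      rw [hB, Finset.mem_filter, hA, Finset.mem_filter]
      exact ⟨⟨Finset.mem_univ _, he⟩, by simp [hea]⟩
    exact (Finset.card_le_card this).trans Finset.card_image_le
  have h4 : (Finset.univ : Finset (Fin k)) ⊆ (G.ms c α β (v i) ∪ P) ∪ {α, β} := by
    intro a _
    simp only [Finset.mem_union, mem_ms, Finset.mem_insert, Finset.mem_singleton, hP,
      Finset.mem_filter, Finset.mem_univ, true_and]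
    tauto
  have h5 := Finset.card_le_card h4
  rw [Finset.card_univ, Fintype.card_fin] at h5
  have h6 := Finset.card_union_le (G.ms c α β (v i) ∪ P) {α, β}
  have h7 := Finset.card_union_le (G.ms c α β (v i)) P
  have h8 : ({α, β} : Finset (Fin k)).card ≤ 2 := Finset.card_le_two
  omega

lemma State.disj [Finite V] {G : MGraph V E} {k l : ℕ} {v : ℕ → V} {f : ℕ → E} {α β : Fin k}
    (hl : 3 ≤ l) (hodd : l % 2 = 1)
    (hG : ¬ G.Colorable k)
    (hex : ∀ c : E → Option (Fin k), G.State l v f α β c → ∀ i < l, (G.ms c α β (v i)).Nonempty)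
    (n : ℕ) : ∀ (c : E → Option (Fin k)), G.State l v f α β c →
      ∀ i j, i < j → j < l → j - i = n → ∀ γ, γ ≠ α → γ ≠ β → G.Miss c (v i) γ →
      G.Miss c (v j) γ → False := by
  induction n with
  | zero => intro c _ i j hij _ hn; omega
  | succ n ih =>
    intro c h i j hij hj hn γ hγα hγβ hi' hj'
    by_cases hadj : j = i + 1
    · subst hadj
      exact h.adj hl hodd hG hj hγα hγβ hi' hj'
    obtain ⟨δ, hδ⟩ := hex c h (i + 1) (by omega)
    rw [mem_ms] at hδ
    obtain ⟨hδα, hδβ, hδm⟩ := hδ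
    have inj := h.inj
    obtain ⟨c', h1, h2, h3, h4, h5⟩ := G.kempe_three h.pp δ γ (v (i + 1)) (v i) (v j) hδm hi' hj'
      (fun hh => by have := inj _ (by omega) _ (by omega) hh; omega)
      (fun hh => by have := inj _ (by omega) _ (by omega) hh; omega)
      (fun hh => by have := inj _ (by omega) _ (by omega) hh; omega)
    have h' : G.State l v f α β c' := by
      refine ⟨h1, h.inj, h.ed, fun e => by rw [h2 e, h.none_iff], ?_, ?_, h.ne⟩
      · intro i hi e he
        rw [Ne, h3 e α hδα.symm hγα.symm]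
        exact h.ma i hi e he
      · intro i hi e he
        rw [Ne, h3 e β hδβ.symm hγβ.symm]
        exact h.mb i hi e he
    rcases h5 with h5 | h5
    · exact h'.adj hl hodd hG (by omega) hγα hγβ h5 h4
    · exact ih c' h' (i + 1) j (by omega) hj (by omega) γ hγα hγβ h4 h5

lemma State.bound [Finite V] [Finite E] {G : MGraph V E} {k l : ℕ} {v : ℕ → V} {f : ℕ → E}
    {α β : Fin k} (hl : 3 ≤ l) (hodd : l % 2 = 1) (hG : ¬ G.Colorable k) {Δ : ℕ}
    (hdeg : ∀ u, G.degree u ≤ Δ) (hk : Δ + 1 ≤ k) {c : E → Option (Fin k)}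
    (h : G.State l v f α β c) : l * (k - Δ) + 2 ≤ k := by
  classical
  have hex : ∀ c : E → Option (Fin k), G.State l v f α β c →
      ∀ i < l, (G.ms c α β (v i)).Nonempty := by
    intro c h i hi
    have := h.card_ms hl hdeg hi
    rw [← Finset.card_pos]
    omega
  have hdisj : ∀ i ∈ Finset.range l, ∀ j ∈ Finset.range l, i ≠ j →
      Disjoint (G.ms c α β (v i)) (G.ms c α β (v j)) := by
    intro i hi j hj hij
    rw [Finset.mem_range] at hi hj
    rw [Finset.disjoint_left]
    intro γ h1 h2
    rw [mem_ms] at h1 h2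
    rcases Nat.lt_or_gt_of_ne hij with hlt | hlt
    · exact State.disj hl hodd hG hex _ c h i j hlt hj rfl γ h1.1 h1.2.1 h1.2.2 h2.2.2
    · exact State.disj hl hodd hG hex _ c h j i hlt hi rfl γ h1.1 h1.2.1 h2.2.2 h1.2.2
  have h1 := Finset.card_biUnion hdisj
  have h2 : (Finset.range l).biUnion (fun i => G.ms c α β (v i)) ⊆
      Finset.univ \ {α, β} := by
    intro a ha
    rw [Finset.mem_biUnion] at ha
    obtain ⟨i, _, ha⟩ := ha
    rw [mem_ms] at ha
    simp [ha.1, ha.2.1]
  have h3 := Finset.card_le_card h2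
  rw [h1, Finset.card_sdiff_of_subset (Finset.subset_univ _), Finset.card_univ, Fintype.card_fin,
    Finset.card_pair h.ne] at h3
  have h4 : l * (k - Δ) ≤ ∑ i ∈ Finset.range l, (G.ms c α β (v i)).card := by
    have : ∑ i ∈ Finset.range l, (k - Δ) ≤ ∑ i ∈ Finset.range l, (G.ms c α β (v i)).card := by
      apply Finset.sum_le_sum
      intro i hi
      have := h.card_ms hl hdeg (Finset.mem_range.mp hi)
      omega
    simpa using this
  have h5 : 1 ≤ l * (k - Δ) := Nat.mul_pos (by omega) (by omega)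
  omega

end MGraph

namespace MGraph

variable {V E : Type}

lemma extract [Finite V] (G : MGraph V E) {k : ℕ} {c : E → Option (Fin k)} (hc : G.PP c) {e0 : E}
    {x y : V} (hends : G.ends e0 = s(x, y)) (hnone : ∀ e, c e = none ↔ e = e0) {α β : Fin k}
    (hαβ : α ≠ β) (hx : G.Miss c x α) (hy : G.Miss c y β) (m0 : ℤ)
    (hym : y = ((G.iv hc α * G.iv hc β) ^ m0) x) :
    ∃ l v f, ∃ c' : E → Option (Fin k), 3 ≤ l ∧ l % 2 = 1 ∧ G.State l v f α β c' := by
  classical
  have hs := G.iv_sq hc α
  have ht := G.iv_sq hc β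
  have hsx : G.iv hc α x = x := by rw [iv_apply]; exact G.nb_miss hx
  obtain ⟨N, hN, hper⟩ := per_iff (G.iv hc α * G.iv hc β) x
  have hPs := dih_s _ _ hs ht x hsx
  have hPt := dih_t _ _ hs ht x hsx
  set P : ℤ → V := fun n => ((G.iv hc α * G.iv hc β) ^ n) x with hP
  have hPs' : ∀ n, G.nb c α (P n) = P (-n) := hPs
  have hPt' : ∀ n, G.nb c β (P n) = P (-n - 1) := hPt
  have hper' : ∀ a b : ℤ, P a = P b ↔ (N : ℤ) ∣ a - b := hper
  have hP0 : P 0 = x := by simp [hP]
  have hty : G.nb c β y = y := G.nb_miss hy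
  have hym' : y = P m0 := hym
  have hdiv : (N : ℤ) ∣ 2 * m0 + 1 := by
    rw [hym', hPt', hper'] at hty
    have : 2 * m0 + 1 = -(-m0 - 1 - m0) := by ring
    rw [this]
    exact (dvd_neg).mpr hty
  obtain ⟨m, hm⟩ : ∃ m : ℕ, N = 2 * m + 1 := by
    rcases Nat.even_or_odd' N with ⟨m, hm | hm⟩
    · exfalso
      obtain ⟨q, hq⟩ := hdiv
      rw [hm] at hq
      push_cast at hq
      have : 2 * (m0 - m * q) = -1 := by linarith
      omega
    · exact ⟨m, hm⟩
  have hym2 : y = P m := by
    rw [hym', hper']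
    obtain ⟨q, hq⟩ := hdiv
    refine ⟨(m0 - m) - m * (q - 1), ?_⟩
    have hNz : (N : ℤ) = 2 * m + 1 := by rw [hm]; push_cast; ring
    rw [hNz] at hq ⊢
    linear_combination (-(m : ℤ)) * hq
  have hxy : x ≠ y := by
    intro h
    apply G.loopless e0
    rw [hends, h]
    simp
  have hm1 : 1 ≤ m := by
    by_contra h0
    have : m = 0 := by omega
    apply hxy
    rw [hym2, this]
    simpa using hP0.symm
  let a : ℕ → ℤ := fun j => if j % 2 = 0 then ((j / 2 : ℕ) : ℤ) else -(((j + 1) / 2 : ℕ) : ℤ)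
  let v : ℕ → V := fun j => P (a j)
  have hinj : ∀ i < N, ∀ j < N, v i = v j → i = j := by
    intro i hi j hj hij
    have h1 : (N : ℤ) ∣ a i - a j := (hper' _ _).mp hij
    have h2 : a i - a j = 0 := by
      apply Int.eq_zero_of_abs_lt_dvd h1
      rw [abs_lt]
      simp only [a]
      split_ifs <;> omega
    simp only [a] at h2
    split_ifs at h2 <;> omega
  have hev : ∀ j, j % 2 = 0 → G.nb c β (v j) = v (j + 1) := by
    intro j hj
    simp only [v]
    rw [hPt']
    congr 1
    simp only [a]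
    rw [if_pos hj, if_neg (by omega)]
    omega
  have hod : ∀ j, j % 2 = 1 → G.nb c α (v j) = v (j + 1) := by
    intro j hj
    simp only [v]
    rw [hPs']
    congr 1
    simp only [a]
    rw [if_neg (by omega), if_pos (by omega)]
    omega
  have hv0 : v 0 = x := by simp [v, a, hP0]
  have hvm : v (2 * m) = y := by
    simp only [v, a]
    rw [if_pos (by omega), hym2]
    congr 1
    omega
  have hf : ∀ j, ∃ e, j < N → (G.ends e = s(v j, v (nx N j)) ∧
      (j + 1 < N → (j % 2 = 0 → c e = some β) ∧ (j % 2 = 1 → c e = some α)) ∧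
      (j + 1 = N → e = e0)) := by
    intro j
    by_cases hj : j < N
    · by_cases hj1 : j + 1 = N
      · refine ⟨e0, fun _ => ⟨?_, fun h => by omega, fun _ => rfl⟩⟩
        have : nx N j = 0 := by unfold nx; rw [if_pos hj1]
        rw [this, hv0, hends, Sym2.eq_swap]
        have : j = 2 * m := by omega
        rw [this, hvm]
      · have hnx : nx N j = j + 1 := by unfold nx; rw [if_neg hj1]
        have hne : v (j + 1) ≠ v j := by
          intro h
          have := hinj (j + 1) (by omega) j hj h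
          omega
        rcases Nat.mod_two_eq_zero_or_one j with h2 | h2
        · have : ¬ G.Miss c (v j) β := by
            rw [← G.miss_iff hc, hev j h2]
            exact hne
          obtain ⟨e, he1, he2⟩ := G.exists_of_not_miss hc this
          rw [hev j h2] at he2
          refine ⟨e, fun _ => ⟨by rw [hnx, he2], fun _ => ⟨fun _ => he1, fun h => by omega⟩,
            fun h => by omega⟩⟩
        · have : ¬ G.Miss c (v j) α := by
            rw [← G.miss_iff hc, hod j h2]
            exact hne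
          obtain ⟨e, he1, he2⟩ := G.exists_of_not_miss hc this
          rw [hod j h2] at he2
          refine ⟨e, fun _ => ⟨by rw [hnx, he2], fun _ => ⟨fun h => by omega, fun _ => he1⟩,
            fun h => by omega⟩⟩
    · exact ⟨e0, fun h => absurd h hj⟩
  choose f hf using hf
  refine ⟨N, v, f, fun e => if ∃ j, j < N ∧ e = f j then none else c e, by omega, by omega, ?_⟩
  have hsome : ∀ e b, (if ∃ j, j < N ∧ e = f j then none else c e) = some b →
      c e = some b ∧ ¬ ∃ j, j < N ∧ e = f j := by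
    intro e b h
    split_ifs at h with h1
    exact ⟨h, h1⟩
  refine ⟨?_, hinj, fun i hi => (hf i hi).1, ?_, ?_, ?_, hαβ⟩
  · intro e e' u b h1 h2 h3 h4
    exact hc e e' u b h1 h2 (hsome e b h3).1 (hsome e' b h4).1
  · intro e
    constructor
    · intro h
      split_ifs at h with h1
      · exact h1
      · rw [hnone] at h
        exact ⟨N - 1, by omega, by rw [h, (hf (N - 1) (by omega)).2.2 (by omega)]⟩
    · intro h
      rw [if_pos h]
  · intro i hi e he h
    obtain ⟨h1, h2⟩ := hsome e α h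
    rcases Nat.eq_zero_or_pos i with h0 | h0
    · subst h0
      rw [hv0] at he
      exact hx e he h1
    · rcases Nat.mod_two_eq_zero_or_one i with h3 | h3
      · have h4 := hf (i - 1) (by omega)
        have h5 := (h4.2.1 (by omega)).2 (by omega)
        have h6 : nx N (i - 1) = i := by unfold nx; rw [if_neg (by omega)]; omega
        exact h2 ⟨i - 1, by omega, hc e _ (v i) α he (by rw [h4.1, h6]; simp) h1 h5⟩
      · have h4 := hf i hi
        have h5 := (h4.2.1 (by omega)).2 h3
        exact h2 ⟨i, hi, hc e _ (v i) α he (by rw [h4.1]; simp) h1 h5⟩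
  · intro i hi e he h
    obtain ⟨h1, h2⟩ := hsome e β h
    rcases Nat.mod_two_eq_zero_or_one i with h3 | h3
    · by_cases h7 : i = 2 * m
      · subst h7
        rw [hvm] at he
        exact hy e he h1
      · have h4 := hf i hi
        have h5 := (h4.2.1 (by omega)).1 h3
        exact h2 ⟨i, hi, hc e _ (v i) β he (by rw [h4.1]; simp) h1 h5⟩
    · have h4 := hf (i - 1) (by omega)
      have h5 := (h4.2.1 (by omega)).1 (by omega)
      have h6 : nx N (i - 1) = i := by unfold nx; rw [if_neg (by omega)]; omega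
      exact h2 ⟨i - 1, by omega, hc e _ (v i) β he (by rw [h4.1, h6]; simp) h1 h5⟩

lemma exists_miss [Finite E] (G : MGraph V E) {k : ℕ} (c : E → Option (Fin k)) {Δ : ℕ}
    (u : V) (hdeg : G.degree u ≤ Δ) (hk : Δ + 1 ≤ k) : ∃ a, G.Miss c u a := by
  classical
  have := Fintype.ofFinite E
  by_contra hcon
  push Not at hcon
  have h1 : ∀ a : Fin k, ∃ e, u ∈ G.ends e ∧ c e = some a := by
    intro a
    have := hcon a
    unfold Miss at this
    push Not at this
    exact this
  choose F hF using h1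
  have hinj : Function.Injective F := by
    intro a b hab
    have h1 := (hF a).2
    rw [hab, (hF b).2] at h1
    exact (Option.some.inj h1).symm
  have h2 : (Finset.univ.image F).card = k := by
    rw [Finset.card_image_of_injective _ hinj, Finset.card_univ, Fintype.card_fin]
  have h3 : Finset.univ.image F ⊆ Finset.univ.filter (fun e => u ∈ G.ends e) := by
    intro e he
    rw [Finset.mem_image] at he
    obtain ⟨a, _, rfl⟩ := he
    simp [(hF a).1]
  have h4 := Finset.card_le_card h3
  rw [h2, ← degree_eq] at h4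
  omega

/-- Deleting one edge. -/
def del (G : MGraph V E) (e0 : E) : MGraph V {e : E // e ≠ e0} where
  ends e := G.ends e.1
  loopless e := G.loopless e.1

lemma del_degree [Finite E] (G : MGraph V E) (e0 : E) (u : V) :
    (G.del e0).degree u ≤ G.degree u := by
  unfold degree
  apply Nat.card_le_card_of_injective
    (fun x : {e : {e : E // e ≠ e0} // u ∈ (G.del e0).ends e} =>
      (⟨x.1.1, x.2⟩ : {e : E // u ∈ G.ends e}))
  intro x y hxy
  have := congrArg Subtype.val hxy
  exact Subtype.ext (Subtype.ext this)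

/-- Goldberg's odd girth bound. -/
theorem goldberg [Finite V] {Δ p k : ℕ} (hk : Δ + 1 ≤ k) (hp : Δ < 2 * p * (k - Δ) + 2) (n : ℕ) :
    ∀ (E : Type) [Finite E] (G : MGraph V E), Nat.card E = n → (∀ u, G.degree u ≤ Δ) →
      (∀ l, 3 ≤ l → l % 2 = 1 → G.HasCycle l → 2 * p + 1 ≤ l) → G.Colorable k := by
  classical
  induction n with
  | zero =>
    intro E _ G hE _ _
    have : IsEmpty E := by
      rcases Nat.card_eq_zero.mp hE with h | h
      · exact h
      · exact absurd ‹Finite E› h.not_finite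
    exact ⟨fun e => (this.false e).elim, fun e => (this.false e).elim⟩
  | succ n ih =>
    intro E _ G hE hdeg hcyc
    by_contra hG
    obtain ⟨e0⟩ : Nonempty E := by
      have : 0 < Nat.card E := by omega
      exact (Nat.card_pos_iff.mp this).1
    have hcard : Nat.card {e : E // e ≠ e0} = n := by
      have := Fintype.ofFinite E
      rw [Nat.card_eq_fintype_card] at hE ⊢
      have h1 := Fintype.card_subtype_compl (fun e : E => e = e0)
      simp only [Fintype.card_subtype_eq] at h1
      rw [hE] at h1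
      simpa using h1
    obtain ⟨c0, hc0⟩ := ih {e : E // e ≠ e0} (G.del e0) hcard
      (fun u => (G.del_degree e0 u).trans (hdeg u)) (by
        intro l h1 h2 ⟨v, h3, h4⟩
        refine hcyc l h1 h2 ⟨v, h3, fun i hi => ?_⟩
        obtain ⟨e, he⟩ := h4 i hi
        exact ⟨e.1, he⟩)
    set c : E → Option (Fin k) := fun e => if h : e ≠ e0 then some (c0 ⟨e, h⟩) else none with hcdef
    have hnone : ∀ e, c e = none ↔ e = e0 := by
      intro e
      simp only [hcdef]
      by_cases h : e = e0
      · simp [h]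
      · simp [h]
    have hc : G.PP c := by
      intro e f u a he hf h1 h2
      by_contra hef
      have he0 : e ≠ e0 := fun h => by rw [(hnone e).mpr h] at h1; simp at h1
      have hf0 : f ≠ e0 := fun h => by rw [(hnone f).mpr h] at h2; simp at h2
      have h3 := hc0 ⟨e, he0⟩ ⟨f, hf0⟩ (fun h => hef (congrArg Subtype.val h)) ⟨u, he, hf⟩
      simp only [hcdef] at h1 h2
      rw [dif_pos he0] at h1
      rw [dif_pos hf0] at h2
      exact h3 (Option.some.inj (h1.trans h2.symm))
    obtain ⟨x, y, hxy⟩ : ∃ x y, G.ends e0 = s(x, y) := by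
      induction h : G.ends e0 using Sym2.ind with
      | _ x y => exact ⟨x, y, rfl⟩
    have hext : ∀ c' : E → Option (Fin k), G.PP c' → (∀ e, c' e = none ↔ e = e0) → ∀ a,
        G.Miss c' x a → G.Miss c' y a → False := by
      intro c' hc' hn' a hxa hya
      apply hG
      apply G.colorable_of_total (fun e => if e = e0 then some a else c' e)
      · intro e f u b he hf h1 h2
        dsimp only at h1 h2
        have hm : u ∈ G.ends e0 → G.Miss c' u a := by
          intro hu
          rw [hxy, Sym2.mem_iff] at hu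
          rcases hu with rfl | rfl
          · exact hxa
          · exact hya
        split_ifs at h1 with h3 <;> split_ifs at h2 with h4
        · rw [h3, h4]
        · exfalso
          rw [h3] at he
          have := Option.some.inj h1
          rw [← this] at h2
          exact hm he f hf h2
        · exfalso
          rw [h4] at hf
          have := Option.some.inj h2
          rw [← this] at h1
          exact hm hf e he h1
        · exact hc' e f u b he hf h1 h2
      · intro e
        split_ifs with h3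
        · simp
        · rw [Ne, hn' e]; exact h3
    obtain ⟨α, hα⟩ := G.exists_miss c x (hdeg x) hk
    obtain ⟨β, hβ⟩ := G.exists_miss c y (hdeg y) hk
    by_cases hαβ : α = β
    · subst hαβ
      exact hext c hc hnone α hα hβ
    by_cases hyc : ∃ m0 : ℤ, y = ((G.iv hc α * G.iv hc β) ^ m0) x
    · obtain ⟨m0, hm0⟩ := hyc
      obtain ⟨l, v, f, c', hl, hodd, hst⟩ := G.extract hc hxy hnone hαβ hα hβ m0 hm0
      have h1 := hst.bound hl hodd hG hdeg hk
      have h2 := hcyc l hl hodd ⟨v, hst.inj, fun i hi => ⟨f i, by rw [mod_eq_nx hi, hst.ed i hi]⟩⟩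
      have h3 : (2 * p + 1) * (k - Δ) ≤ l * (k - Δ) := Nat.mul_le_mul_right _ h2
      have h4 : (2 * p + 1) * (k - Δ) = 2 * p * (k - Δ) + (k - Δ) := by ring
      omega
    · obtain ⟨c', h1, h2, h3, h4, h5⟩ := G.swap_comp hc α β x hα
      exact hext c' h1 (fun e => by rw [h2, hnone]) β h4 (h5 y hyc β hβ)

end MGraph

namespace MGraph

variable {V E V₁ E₁ V₂ E₂ : Type}

lemma Colorable.mono {G : MGraph V E} {j k : ℕ} (h : G.Colorable j) (hjk : j ≤ k) :
    G.Colorable k := by
  obtain ⟨c, hc⟩ := h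
  exact ⟨fun e => Fin.castLE hjk (c e), fun e f hef hv h => hc e f hef hv (Fin.castLE_injective hjk h)⟩

lemma exists_ends (G : MGraph V E) (e : E) : ∃ x y, x ≠ y ∧ G.ends e = s(x, y) := by
  have hl := G.loopless e
  induction h : G.ends e using Sym2.ind with
  | _ x y =>
    refine ⟨x, y, ?_, rfl⟩
    intro hxy
    apply hl
    rw [h, hxy]
    simp

/-- In a graph with `2 * p + 1` vertices every colour is used at most `p` times. -/
lemma overfull [Finite V] [Finite E] (G : MGraph V E) {k p : ℕ} (hc : G.Colorable k)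
    (hV : Nat.card V = 2 * p + 1) : Nat.card E ≤ k * p := by
  classical
  have := Fintype.ofFinite V
  have := Fintype.ofFinite E
  obtain ⟨c, hc⟩ := hc
  rw [Nat.card_eq_fintype_card] at hV ⊢
  have h1 : ∀ a : Fin k, (Finset.univ.filter (fun e => c e = a)).card ≤ p := by
    intro a
    have h2 : ∀ e ∈ Finset.univ.filter (fun e => c e = a),
        ∀ f ∈ Finset.univ.filter (fun e => c e = a), e ≠ f →
        Disjoint (Finset.univ.filter (fun v => v ∈ G.ends e))
          (Finset.univ.filter (fun v => v ∈ G.ends f)) := by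
      intro e he f hf hef
      rw [Finset.disjoint_left]
      intro v hv hv'
      simp only [Finset.mem_filter, Finset.mem_univ, true_and] at he hf hv hv'
      exact hc e f hef ⟨v, hv, hv'⟩ (he.trans hf.symm)
    have h3 := Finset.card_biUnion h2
    have h4 : ∀ e, (Finset.univ.filter (fun v => v ∈ G.ends e)).card = 2 := by
      intro e
      obtain ⟨x, y, hxy, hes⟩ := G.exists_ends e
      have : Finset.univ.filter (fun v => v ∈ G.ends e) = {x, y} := by
        ext v
        simp [hes]
      rw [this, Finset.card_pair hxy]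
    have h5 := Finset.card_le_univ ((Finset.univ.filter (fun e => c e = a)).biUnion
      (fun e => Finset.univ.filter (fun v => v ∈ G.ends e)))
    rw [h3, hV] at h5
    simp only [h4, Finset.sum_const, smul_eq_mul] at h5
    omega
  have h6 := Finset.card_eq_sum_card_fiberwise (f := c) (s := Finset.univ) (t := Finset.univ)
    (fun _ _ => Finset.mem_univ _)
  rw [Finset.card_univ] at h6
  rw [h6]
  calc _ ≤ ∑ _a : Fin k, p := Finset.sum_le_sum (fun a _ => h1 a)
    _ = k * p := by simp

/-- Disjoint union. -/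
def sum (G₁ : MGraph V₁ E₁) (G₂ : MGraph V₂ E₂) : MGraph (V₁ ⊕ V₂) (E₁ ⊕ E₂) where
  ends e := e.elim (fun e => (G₁.ends e).map Sum.inl) (fun e => (G₂.ends e).map Sum.inr)
  loopless := by
    rintro (e | e) h
    · obtain ⟨x, y, hxy, hes⟩ := G₁.exists_ends e
      simp only [Sum.elim_inl, hes, Sym2.map_mk, Sym2.mk_isDiag_iff] at h
      exact hxy (Sum.inl_injective h)
    · obtain ⟨x, y, hxy, hes⟩ := G₂.exists_ends e
      simp only [Sum.elim_inr, hes, Sym2.map_mk, Sym2.mk_isDiag_iff] at h
      exact hxy (Sum.inr_injective h)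

section Sum

variable (G₁ : MGraph V₁ E₁) (G₂ : MGraph V₂ E₂)

lemma mem_sum_ll (v : V₁) (e : E₁) : Sum.inl v ∈ (G₁.sum G₂).ends (Sum.inl e) ↔ v ∈ G₁.ends e := by
  simp [sum, Sym2.mem_map]

lemma mem_sum_rr (v : V₂) (e : E₂) : Sum.inr v ∈ (G₁.sum G₂).ends (Sum.inr e) ↔ v ∈ G₂.ends e := by
  simp [sum, Sym2.mem_map]

lemma mem_sum_lr (v : V₁) (e : E₂) : ¬ Sum.inl v ∈ (G₁.sum G₂).ends (Sum.inr e) := by
  simp [sum, Sym2.mem_map]

lemma mem_sum_rl (v : V₂) (e : E₁) : ¬ Sum.inr v ∈ (G₁.sum G₂).ends (Sum.inl e) := by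
  simp [sum, Sym2.mem_map]

lemma sum_degree_inl (v : V₁) : (G₁.sum G₂).degree (Sum.inl v) = G₁.degree v := by
  unfold degree
  refine Nat.card_congr ⟨fun x => ?_, fun x => ⟨Sum.inl x.1, (mem_sum_ll G₁ G₂ v x.1).mpr x.2⟩,
    ?_, ?_⟩
  · exact match x with
    | ⟨Sum.inl e, he⟩ => ⟨e, (mem_sum_ll G₁ G₂ v e).mp he⟩
    | ⟨Sum.inr e, he⟩ => absurd he (mem_sum_lr G₁ G₂ v e)
  · rintro ⟨e | e, he⟩
    · rfl
    · exact absurd he (mem_sum_lr G₁ G₂ v e)
  · rintro ⟨e, he⟩
    rfl

lemma sum_degree_inr (v : V₂) : (G₁.sum G₂).degree (Sum.inr v) = G₂.degree v := by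
  unfold degree
  refine Nat.card_congr ⟨fun x => ?_, fun x => ⟨Sum.inr x.1, (mem_sum_rr G₁ G₂ v x.1).mpr x.2⟩,
    ?_, ?_⟩
  · exact match x with
    | ⟨Sum.inr e, he⟩ => ⟨e, (mem_sum_rr G₁ G₂ v e).mp he⟩
    | ⟨Sum.inl e, he⟩ => absurd he (mem_sum_rl G₁ G₂ v e)
  · rintro ⟨e | e, he⟩
    · exact absurd he (mem_sum_rl G₁ G₂ v e)
    · rfl
  · rintro ⟨e, he⟩
    rfl

lemma sum_ends_inl (u w : V₁) (e : E₁) :
    (G₁.sum G₂).ends (Sum.inl e) = s(Sum.inl u, Sum.inl w) ↔ G₁.ends e = s(u, w) := by
  have : (G₁.sum G₂).ends (Sum.inl e) = (G₁.ends e).map Sum.inl := rfl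
  rw [this, ← Sym2.map_mk]
  exact (Sym2.map.injective Sum.inl_injective).eq_iff

lemma sum_ends_inr (u w : V₂) (e : E₂) :
    (G₁.sum G₂).ends (Sum.inr e) = s(Sum.inr u, Sum.inr w) ↔ G₂.ends e = s(u, w) := by
  have : (G₁.sum G₂).ends (Sum.inr e) = (G₂.ends e).map Sum.inr := rfl
  rw [this, ← Sym2.map_mk]
  exact (Sym2.map.injective Sum.inr_injective).eq_iff

lemma sum_no_mixed (u : V₁) (w : V₂) (e : E₁ ⊕ E₂) :
    ¬ (Sum.inl u ∈ (G₁.sum G₂).ends e ∧ Sum.inr w ∈ (G₁.sum G₂).ends e) := by
  rintro ⟨h1, h2⟩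
  rcases e with e | e
  · exact mem_sum_rl G₁ G₂ w e h2
  · exact mem_sum_lr G₁ G₂ u e h1

lemma sum_mult_inl (u w : V₁) :
    (G₁.sum G₂).mult (Sum.inl u) (Sum.inl w) = G₁.mult u w := by
  unfold mult
  have hno : ∀ e : E₂, ¬ (G₁.sum G₂).ends (Sum.inr e) = s(Sum.inl u, Sum.inl w) := by
    intro e h
    exact mem_sum_lr G₁ G₂ u e (by rw [h]; simp)
  refine Nat.card_congr ⟨fun x => ?_, fun x => ⟨Sum.inl x.1, (sum_ends_inl G₁ G₂ u w x.1).mpr x.2⟩,
    ?_, ?_⟩
  · exact match x with
    | ⟨Sum.inl e, he⟩ => ⟨e, (sum_ends_inl G₁ G₂ u w e).mp he⟩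
    | ⟨Sum.inr e, he⟩ => absurd he (hno e)
  · rintro ⟨e | e, he⟩
    · rfl
    · exact absurd he (hno e)
  · rintro ⟨e, he⟩
    rfl

lemma sum_mult_inr (u w : V₂) :
    (G₁.sum G₂).mult (Sum.inr u) (Sum.inr w) = G₂.mult u w := by
  unfold mult
  have hno : ∀ e : E₁, ¬ (G₁.sum G₂).ends (Sum.inl e) = s(Sum.inr u, Sum.inr w) := by
    intro e h
    exact mem_sum_rl G₁ G₂ u e (by rw [h]; simp)
  refine Nat.card_congr ⟨fun x => ?_, fun x => ⟨Sum.inr x.1, (sum_ends_inr G₁ G₂ u w x.1).mpr x.2⟩,
    ?_, ?_⟩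
  · exact match x with
    | ⟨Sum.inr e, he⟩ => ⟨e, (sum_ends_inr G₁ G₂ u w e).mp he⟩
    | ⟨Sum.inl e, he⟩ => absurd he (hno e)
  · rintro ⟨e | e, he⟩
    · exact absurd he (hno e)
    · rfl
  · rintro ⟨e, he⟩
    rfl

lemma sum_mult_mixed (u : V₁) (w : V₂) : (G₁.sum G₂).mult (Sum.inl u) (Sum.inr w) = 0 := by
  unfold mult
  rw [Nat.card_eq_zero]
  left
  refine ⟨fun x => ?_⟩
  exact sum_no_mixed G₁ G₂ u w x.1 ⟨by rw [x.2]; simp, by rw [x.2]; simp⟩

lemma mult_comm (G : MGraph V E) (u w : V) : G.mult u w = G.mult w u := by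
  unfold mult
  rw [Sym2.eq_swap]

lemma sum_mult_le {μ : ℕ} (h1 : ∀ u w, u ≠ w → G₁.mult u w ≤ μ)
    (h2 : ∀ u w, u ≠ w → G₂.mult u w ≤ μ) : ∀ u w, u ≠ w → (G₁.sum G₂).mult u w ≤ μ := by
  rintro (u | u) (w | w) h
  · rw [sum_mult_inl]; exact h1 u w (fun h' => h (by rw [h']))
  · rw [sum_mult_mixed]; omega
  · rw [mult_comm, sum_mult_mixed]; omega
  · rw [sum_mult_inr]; exact h2 u w (fun h' => h (by rw [h']))

lemma sum_degree_le {Δ : ℕ} (h1 : ∀ u, G₁.degree u ≤ Δ) (h2 : ∀ u, G₂.degree u ≤ Δ) :
    ∀ u, (G₁.sum G₂).degree u ≤ Δ := by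
  rintro (u | u)
  · rw [sum_degree_inl]; exact h1 u
  · rw [sum_degree_inr]; exact h2 u

lemma sum_cycle_inl {l : ℕ} (h : G₁.HasCycle l) : (G₁.sum G₂).HasCycle l := by
  obtain ⟨v, h1, h2⟩ := h
  refine ⟨fun i => Sum.inl (v i), fun i hi j hj hij => h1 i hi j hj (Sum.inl_injective hij), ?_⟩
  intro i hi
  obtain ⟨e, he⟩ := h2 i hi
  exact ⟨Sum.inl e, (sum_ends_inl G₁ G₂ _ _ e).mpr he⟩

lemma sum_cycle_inr {l : ℕ} (h : G₂.HasCycle l) : (G₁.sum G₂).HasCycle l := by
  obtain ⟨v, h1, h2⟩ := h
  refine ⟨fun i => Sum.inr (v i), fun i hi j hj hij => h1 i hi j hj (Sum.inr_injective hij), ?_⟩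
  intro i hi
  obtain ⟨e, he⟩ := h2 i hi
  exact ⟨Sum.inr e, (sum_ends_inr G₁ G₂ _ _ e).mpr he⟩

lemma sum_cycle {l : ℕ} (hl : 1 ≤ l) (h : (G₁.sum G₂).HasCycle l) :
    G₁.HasCycle l ∨ G₂.HasCycle l := by
  obtain ⟨v, h1, h2⟩ := h
  rcases h0 : v 0 with u0 | u0
  · left
    have hall : ∀ i < l, ∃ u, v i = Sum.inl u := by
      intro i
      induction i with
      | zero => exact fun _ => ⟨u0, h0⟩
      | succ i ih =>
        intro hi
        obtain ⟨u, hu⟩ := ih (by omega)
        obtain ⟨e, he⟩ := h2 i (by omega)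
        rw [Nat.mod_eq_of_lt hi] at he
        rcases hw : v (i + 1) with w | w
        · exact ⟨w, rfl⟩
        · exfalso
          exact sum_no_mixed G₁ G₂ u w e ⟨by rw [he, hu]; simp, by rw [he, hw]; simp⟩
    have hall' : ∀ i, ∃ u, i < l → v i = Sum.inl u := by
      intro i
      by_cases hi : i < l
      · obtain ⟨u, hu⟩ := hall i hi
        exact ⟨u, fun _ => hu⟩
      · exact ⟨u0, fun h => absurd h hi⟩
    choose w hw using hall'
    refine ⟨w, fun i hi j hj hij => h1 i hi j hj (by rw [hw i hi, hw j hj, hij]), ?_⟩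
    intro i hi
    obtain ⟨e, he⟩ := h2 i hi
    rw [hw i hi, hw _ (Nat.mod_lt _ (by omega))] at he
    rcases e with e | e
    · exact ⟨e, (sum_ends_inl G₁ G₂ _ _ e).mp he⟩
    · exfalso
      exact mem_sum_lr G₁ G₂ (w i) e (by rw [he]; simp)
  · right
    have hall : ∀ i < l, ∃ u, v i = Sum.inr u := by
      intro i
      induction i with
      | zero => exact fun _ => ⟨u0, h0⟩
      | succ i ih =>
        intro hi
        obtain ⟨u, hu⟩ := ih (by omega)
        obtain ⟨e, he⟩ := h2 i (by omega)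
        rw [Nat.mod_eq_of_lt hi] at he
        rcases hw : v (i + 1) with w | w
        · exfalso
          exact sum_no_mixed G₁ G₂ w u e ⟨by rw [he, hw]; simp, by rw [he, hu]; simp⟩
        · exact ⟨w, rfl⟩
    have hall' : ∀ i, ∃ u, i < l → v i = Sum.inr u := by
      intro i
      by_cases hi : i < l
      · obtain ⟨u, hu⟩ := hall i hi
        exact ⟨u, fun _ => hu⟩
      · exact ⟨u0, fun h => absurd h hi⟩
    choose w hw using hall'
    refine ⟨w, fun i hi j hj hij => h1 i hi j hj (by rw [hw i hi, hw j hj, hij]), ?_⟩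
    intro i hi
    obtain ⟨e, he⟩ := h2 i hi
    rw [hw i hi, hw _ (Nat.mod_lt _ (by omega))] at he
    rcases e with e | e
    · exfalso
      exact mem_sum_rl G₁ G₂ (w i) e (by rw [he]; simp)
    · exact ⟨e, (sum_ends_inr G₁ G₂ _ _ e).mp he⟩

lemma sum_colorable {k : ℕ} : (G₁.sum G₂).Colorable k ↔ G₁.Colorable k ∧ G₂.Colorable k := by
  constructor
  · rintro ⟨c, hc⟩
    refine ⟨⟨fun e => c (Sum.inl e), fun e f hef ⟨v, hv, hw⟩ => ?_⟩,
      ⟨fun e => c (Sum.inr e), fun e f hef ⟨v, hv, hw⟩ => ?_⟩⟩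
    · exact hc _ _ (fun h => hef (Sum.inl_injective h))
        ⟨Sum.inl v, (mem_sum_ll G₁ G₂ v e).mpr hv, (mem_sum_ll G₁ G₂ v f).mpr hw⟩
    · exact hc _ _ (fun h => hef (Sum.inr_injective h))
        ⟨Sum.inr v, (mem_sum_rr G₁ G₂ v e).mpr hv, (mem_sum_rr G₁ G₂ v f).mpr hw⟩
  · rintro ⟨⟨c, hc⟩, ⟨d, hd⟩⟩
    refine ⟨fun e => Sum.elim c d e, ?_⟩
    rintro (e | e) (f | f) hef ⟨v | v, hv, hw⟩
    · exact hc e f (fun h => hef (by rw [h]))
        ⟨v, (mem_sum_ll G₁ G₂ v e).mp hv, (mem_sum_ll G₁ G₂ v f).mp hw⟩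
    · exact absurd hv (mem_sum_rl G₁ G₂ v e)
    · exact absurd hw (mem_sum_lr G₁ G₂ v f)
    · exact absurd hv (mem_sum_rl G₁ G₂ v e)
    · exact absurd hv (mem_sum_lr G₁ G₂ v e)
    · exact absurd hw (mem_sum_rl G₁ G₂ v f)
    · exact absurd hv (mem_sum_lr G₁ G₂ v e)
    · exact hd e f (fun h => hef (by rw [h]))
        ⟨v, (mem_sum_rr G₁ G₂ v e).mp hv, (mem_sum_rr G₁ G₂ v f).mp hw⟩

end Sum

/-- `μ` parallel edges on two vertices. -/
def bond (μ : ℕ) : MGraph Bool (Fin μ) where
  ends _ := s(false, true)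
  loopless _ := by simp

lemma bond_degree (μ : ℕ) (u : Bool) : (bond μ).degree u = μ := by
  unfold degree
  have : ∀ e, u ∈ (bond μ).ends e := by
    intro e
    cases u <;> simp [bond]
  rw [Nat.card_congr (Equiv.subtypeUnivEquiv this)]
  simp

lemma bond_mult_le (μ : ℕ) (u w : Bool) : (bond μ).mult u w ≤ μ := by
  unfold mult
  have := Nat.card_le_card_of_injective
    (fun x : {e : Fin μ // (bond μ).ends e = s(u, w)} => x.1) Subtype.val_injective
  simpa using this

lemma bond_mult (μ : ℕ) : (bond μ).mult false true = μ := by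
  unfold mult
  have : ∀ e, (bond μ).ends e = s(false, true) := fun e => rfl
  rw [Nat.card_congr (Equiv.subtypeUnivEquiv this)]
  simp

lemma bond_cycle (μ : ℕ) {l : ℕ} (hl : 3 ≤ l) : ¬ (bond μ).HasCycle l := by
  rintro ⟨v, h1, _⟩
  have h01 : v 0 ≠ v 1 := fun h => by have := h1 0 (by omega) 1 (by omega) h; omega
  have h02 : v 0 ≠ v 2 := fun h => by have := h1 0 (by omega) 2 (by omega) h; omega
  have h12 : v 1 ≠ v 2 := fun h => by have := h1 1 (by omega) 2 (by omega) h; omega
  have key : ∀ a b c : Bool, a ≠ b → a ≠ c → b ≠ c → False := by decide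
  exact key _ _ _ h01 h02 h12

lemma bond_colorable {μ k : ℕ} (h : μ ≤ k) : (bond μ).Colorable k :=
  ⟨Fin.castLE h, fun _ _ hef _ h' => hef (Fin.castLE_injective h h')⟩

end MGraph

namespace MGraph

/-- The cycle of length `n`, the edge between `i` and `i + 1` having multiplicity `m i`. -/
def fat (n : ℕ) (hn : 3 ≤ n) (m : ZMod n → ℕ) : MGraph (ZMod n) ((i : ZMod n) × Fin (m i)) where
  ends x := s(x.1, x.1 + 1)
  loopless x h := by
    rw [Sym2.mk_isDiag_iff] at h
    have h1 : (1 : ZMod n) = 0 := by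
      have := congrArg (fun y => y - x.1) h
      simpa using this.symm
    have : Fact (1 < n) := ⟨by omega⟩
    exact one_ne_zero h1

section Fat

variable {n : ℕ} (hn : 3 ≤ n) (m : ZMod n → ℕ)

lemma two_ne (hn : 3 ≤ n) : (1 : ZMod n) + 1 ≠ 0 := by
  intro h
  have h2 : ((2 : ℕ) : ZMod n) = 0 := by
    rw [← h]; norm_num
  rw [ZMod.natCast_eq_zero_iff] at h2
  have := Nat.le_of_dvd (by norm_num) h2
  omega

lemma fat_inj {x y : (i : ZMod n) × Fin (m i)} (h : (fat n hn m).ends x = (fat n hn m).ends y) :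
    x.1 = y.1 := by
  have h' : s(x.1, x.1 + 1) = s(y.1, y.1 + 1) := h
  rw [Sym2.eq_iff] at h'
  rcases h' with ⟨h1, _⟩ | ⟨h1, h2⟩
  · exact h1
  · exfalso
    apply two_ne hn
    rw [h1] at h2
    have : y.1 + (1 + 1) = y.1 + 0 := by rw [← add_assoc, h2, add_zero]
    exact add_left_cancel this

lemma fat_mult_le {M : ℕ} (hm : ∀ i, m i ≤ M) (u w : ZMod n) : (fat n hn m).mult u w ≤ M := by
  unfold mult
  have hinj : Function.Injective
      (fun x : {x : (i : ZMod n) × Fin (m i) // (fat n hn m).ends x = s(u, w)} =>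
        (⟨x.1.2.1, lt_of_lt_of_le x.1.2.2 (hm _)⟩ : Fin M)) := by
    rintro ⟨⟨i, a⟩, hx⟩ ⟨⟨j, b⟩, hy⟩ h
    have h1 : i = j := fat_inj hn m (hx.trans hy.symm)
    subst h1
    simp only [Fin.mk.injEq] at h
    have : a = b := Fin.ext h
    subst this
    rfl
  have := Nat.card_le_card_of_injective _ hinj
  simpa using this

lemma fat_degree (v : ZMod n) : (fat n hn m).degree v = m v + m (v - 1) := by
  classical
  have : NeZero n := ⟨by omega⟩
  have : Fact (1 < n) := ⟨by omega⟩
  unfold degree
  rw [Nat.card_eq_fintype_card, Fintype.card_subtype]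
  have h1 : (Finset.univ.filter (fun x => v ∈ (fat n hn m).ends x)) =
      ({v, v - 1} : Finset (ZMod n)).sigma (fun _ => Finset.univ) := by
    ext ⟨i, a⟩
    simp only [Finset.mem_filter, Finset.mem_univ, true_and, Finset.mem_sigma, and_true,
      Finset.mem_insert, Finset.mem_singleton]
    show v ∈ s(i, i + 1) ↔ _
    rw [Sym2.mem_iff]
    constructor
    · rintro (h | h)
      · exact Or.inl h.symm
      · right; rw [h]; ring
    · rintro (h | h)
      · exact Or.inl h.symm
      · right; rw [h]; ring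
  rw [h1, Finset.card_sigma, Finset.sum_pair]
  · simp
  · intro h
    have : (1 : ZMod n) = 0 := by linear_combination h
    exact one_ne_zero this

lemma fat_cycle_self (hm : ∀ i, 1 ≤ m i) : (fat n hn m).HasCycle n := by
  have : NeZero n := ⟨by omega⟩
  refine ⟨fun i => (i : ZMod n), ?_, ?_⟩
  · intro i hi j hj hij
    have := (ZMod.natCast_eq_natCast_iff' i j n).mp hij
    rwa [Nat.mod_eq_of_lt hi, Nat.mod_eq_of_lt hj] at this
  · intro i _
    refine ⟨⟨(i : ZMod n), ⟨0, hm _⟩⟩, ?_⟩
    show s((i : ZMod n), (i : ZMod n) + 1) = s((i : ZMod n), (((i + 1) % n : ℕ) : ZMod n))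
    rw [ZMod.natCast_mod]
    push_cast
    rfl

lemma fat_cycle {l : ℕ} (hl : 3 ≤ l) (h : (fat n hn m).HasCycle l) : n ≤ l := by
  obtain ⟨v, hinj, hadj⟩ := h
  have h1 : ∀ i < l, v (nx l i) = v i + 1 ∨ v (nx l i) = v i - 1 := by
    intro i hi
    obtain ⟨x, hx⟩ := hadj i hi
    rw [mod_eq_nx hi] at hx
    have hx' : s(x.1, x.1 + 1) = s(v i, v (nx l i)) := hx
    rw [Sym2.eq_iff] at hx'
    rcases hx' with ⟨h2, h3⟩ | ⟨h2, h3⟩
    · left; rw [← h2, ← h3]
    · right; rw [← h2, ← h3]; ring
  have nx1 : ∀ i, i + 1 < l → nx l i = i + 1 := by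
    intro i hi
    unfold nx
    rw [if_neg (by omega)]
  have key : ∀ ε : ZMod n, v 1 = v 0 + ε → (ε = 1 ∨ ε = -1) → n ≤ l := by
    intro ε h01 hε
    have hstep : ∀ i, i + 1 < l → v (i + 1) = v i + ε := by
      intro i
      induction i with
      | zero => exact fun _ => h01
      | succ i ih =>
        intro hi
        have h2 := ih (by omega)
        have h3 := h1 (i + 1) (by omega)
        rw [nx1 _ hi] at h3
        have h4 : v (i + 1 + 1) ≠ v i := by
          intro h
          have := hinj _ hi _ (by omega) h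
          omega
        rcases hε with rfl | rfl <;> rcases h3 with h3 | h3
        · exact h3
        · exact absurd (by rw [h3, h2]; ring) h4
        · exact absurd (by rw [h3, h2]; ring) h4
        · rw [h3]; ring
    have hlin : ∀ i < l, v i = v 0 + (i : ZMod n) * ε := by
      intro i
      induction i with
      | zero => intro _; simp
      | succ i ih =>
        intro hi
        rw [hstep i hi, ih (by omega)]
        push_cast
        ring
    have h5 := h1 (l - 1) (by omega)
    have h6 : nx l (l - 1) = 0 := by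
      unfold nx
      rw [if_pos (by omega)]
    rw [h6] at h5
    have h7 : v (l - 1) = v (l - 2) + ε := by
      have := hstep (l - 2) (by omega)
      rwa [show l - 2 + 1 = l - 1 by omega] at this
    have h8 : v 0 = v (l - 1) + ε := by
      have h9 : v 0 ≠ v (l - 2) := by
        intro h
        have := hinj _ (by omega) _ (by omega) h
        omega
      rcases hε with rfl | rfl <;> rcases h5 with h5 | h5
      · exact h5
      · exact absurd (by rw [h5, h7]; ring) h9
      · exact absurd (by rw [h5, h7]; ring) h9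
      · rw [h5]; ring
    rw [hlin (l - 1) (by omega)] at h8
    have h9 : ((l : ℕ) : ZMod n) * ε = 0 := by
      have hcast : ((l : ℕ) : ZMod n) = ((l - 1 : ℕ) : ZMod n) + 1 := by
        rw [← Nat.cast_succ]
        congr 1
        omega
      rw [hcast]
      linear_combination -h8
    have h10 : ((l : ℕ) : ZMod n) = 0 := by
      rcases hε with rfl | rfl
      · simpa using h9
      · simpa using h9
    rw [ZMod.natCast_eq_zero_iff] at h10
    exact Nat.le_of_dvd (by omega) h10
  have h2 := h1 0 (by omega)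
  rw [nx1 0 (by omega)] at h2
  rcases h2 with h2 | h2
  · exact key 1 h2 (Or.inl rfl)
  · exact key (-1) (by rw [h2]; ring) (Or.inr rfl)

end Fat

/-- multiplicities alternating between `a` and `b` -/
def alt (n a b : ℕ) (i : ZMod n) : ℕ := if i.val % 2 = 0 then a else b

lemma alt_sum (p a b : ℕ) : ∑ i : ZMod (2 * p + 1), alt (2 * p + 1) a b i = (p + 1) * a + p * b := by
  have h1 : ∑ i : ZMod (2 * p + 1), alt (2 * p + 1) a b i =
      ∑ i : Fin (2 * p + 1), (fun j : ℕ => if j % 2 = 0 then a else b) i := rfl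
  rw [h1, Fin.sum_univ_eq_sum_range (fun j : ℕ => if j % 2 = 0 then a else b)]
  induction p with
  | zero => simp
  | succ p ih =>
    have h2 : ∑ i ∈ Finset.range (2 * p + 1), (fun j : ℕ => if j % 2 = 0 then a else b) i =
        (p + 1) * a + p * b := by
      apply ih
      rfl
    rw [show 2 * (p + 1) + 1 = 2 * p + 1 + 1 + 1 by ring, Finset.sum_range_succ,
      Finset.sum_range_succ, h2]
    rw [if_neg (by omega), if_pos (by omega)]
    ring

end MGraph

section Words

/-- multiply a word of bounded length by a letter -/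
def act {d : ℕ} (r : ℕ) (i : Fin d) : List (Fin d) → List (Fin d)
  | [] => if 0 < r then [i] else []
  | a :: l => if a = i then l else if (a :: l).length < r then i :: a :: l else a :: l

/-- reduced words of length at most `r` -/
def Word (d r : ℕ) : Type := {w : List (Fin d) // w.length ≤ r ∧ w.IsChain (· ≠ ·)}

instance (d r : ℕ) : Finite (Word d r) := by
  unfold Word
  apply Set.Finite.subset (List.finite_length_le (Fin d) r)
  intro w hw
  exact hw.1

lemma act_ok {d r : ℕ} (i : Fin d) (w : List (Fin d)) (h : w.length ≤ r ∧ w.IsChain (· ≠ ·)) :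
    (act r i w).length ≤ r ∧ (act r i w).IsChain (· ≠ ·) := by
  rcases w with _ | ⟨a, l⟩
  · simp only [act]
    split_ifs with h0
    · simp; omega
    · simp
  · simp only [act]
    split_ifs with h1 h2
    · refine ⟨?_, ?_⟩
      · have := h.1; simp at this; omega
      · exact h.2.tail
    · refine ⟨?_, ?_⟩
      · simp at h2 ⊢; omega
      · rw [List.isChain_cons_cons]
        exact ⟨fun h => h1 h.symm, h.2⟩
    · exact h

lemma act_act {d r : ℕ} (i : Fin d) (w : List (Fin d)) (h : w.length ≤ r ∧ w.IsChain (· ≠ ·)) :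
    act r i (act r i w) = w := by
  rcases w with _ | ⟨a, l⟩
  · by_cases h0 : 0 < r
    · simp [act, h0]
    · simp [act, h0]
  · by_cases h1 : a = i
    · subst h1
      have h2 : act r a (a :: l) = l := by simp [act]
      rw [h2]
      rcases l with _ | ⟨b, l⟩
      · have : 0 < r := by have := h.1; simp at this; omega
        simp [act, this]
      · have h3 : b ≠ a := by
          have := h.2
          rw [List.isChain_cons_cons] at this
          exact this.1.symm
        have h4 : (b :: l).length < r := by have := h.1; simp at this ⊢; omega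
        simp only [act]
        rw [if_neg h3, if_pos h4]
    · by_cases h2 : (a :: l).length < r
      · have h3 : act r i (a :: l) = i :: a :: l := by
          simp only [act]
          rw [if_neg h1, if_pos h2]
        rw [h3]
        simp [act]
      · have h3 : act r i (a :: l) = a :: l := by
          simp only [act]
          rw [if_neg h1, if_neg h2]
        rw [h3, h3]

/-- the letter `i` acting on reduced words -/
def pi' {d r : ℕ} (i : Fin d) : Equiv.Perm (Word d r) :=
  Function.Involutive.toPerm (fun w => ⟨act r i w.1, act_ok i w.1 w.2⟩)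
    (fun w => Subtype.ext (act_act i w.1 w.2))

lemma pi_val {d r : ℕ} (i : Fin d) (w : Word d r) : (pi' i w).1 = act r i w.1 := rfl

lemma pi_sq {d r : ℕ} (i : Fin d) : (pi' i : Equiv.Perm (Word d r)) * pi' i = 1 := by
  ext w
  have := act_act i w.1 w.2
  rw [Equiv.Perm.mul_apply]
  exact Subtype.ext this

/-- the empty word -/
def e0w {d r : ℕ} : Word d r := ⟨[], by simp⟩

lemma pi_inj {d r : ℕ} (hr : 1 ≤ r) {i j : Fin d}
    (h : (pi' i : Equiv.Perm (Word d r)) = pi' j) : i = j := by
  have h1 : (pi' i (e0w : Word d r)).1 = (pi' j (e0w : Word d r)).1 := by rw [h]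
  have h0 : (e0w : Word d r).1 = [] := rfl
  rw [pi_val, pi_val, h0] at h1
  simp only [act] at h1
  rw [if_pos (by omega), if_pos (by omega)] at h1
  simpa using h1

lemma walk {d r : ℕ} (g : ℕ → Equiv.Perm (Word d r)) (s : ℕ → Fin d) (m : ℕ) (hm : 1 ≤ m)
    (hmr : m ≤ r) (hg : ∀ j < m, g (j + 1) = pi' (s j) * g j)
    (hs : ∀ j, j + 1 < m → s j ≠ s (j + 1)) : g m ≠ g 0 := by
  have key : ∀ j ≤ m, ((g j * (g 0)⁻¹) e0w).1.length = j ∧
      ∀ a l, ((g j * (g 0)⁻¹) e0w).1 = a :: l → 1 ≤ j ∧ a = s (j - 1) := by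
    intro j
    induction j with
    | zero =>
      intro _
      have : (g 0 * (g 0)⁻¹) e0w = e0w := by simp
      rw [this]
      simp [e0w]
    | succ j ih =>
      intro hj
      obtain ⟨h1, h2⟩ := ih (by omega)
      have h3 : ((g (j + 1) * (g 0)⁻¹) e0w).1 = act r (s j) ((g j * (g 0)⁻¹) e0w).1 := by
        rw [hg j (by omega), mul_assoc, Equiv.Perm.mul_apply, pi_val]
      rw [h3]
      rcases hw : ((g j * (g 0)⁻¹) e0w).1 with _ | ⟨a, l⟩
      · rw [hw] at h1
        simp only [List.length_nil] at h1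
        simp only [act]
        rw [if_pos (by omega)]
        refine ⟨by simp; omega, ?_⟩
        intro a l h
        simp only [List.cons.injEq] at h
        exact ⟨by omega, by rw [← h.1]; simp⟩
      · obtain ⟨h4, h5⟩ := h2 a l hw
        rw [hw] at h1
        have h6 : a ≠ s j := by
          rw [h5]
          have := hs (j - 1) (by omega)
          rwa [show j - 1 + 1 = j by omega] at this
        simp only [act]
        rw [if_neg h6, if_pos (by omega)]
        refine ⟨by simp only [List.length_cons] at h1 ⊢; omega, ?_⟩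
        intro a' l' h
        simp only [List.cons.injEq] at h
        exact ⟨by omega, by rw [← h.1]; simp⟩
  intro h
  have h1 := (key m le_rfl).1
  rw [h] at h1
  have : (g 0 * (g 0)⁻¹) e0w = e0w := by simp
  rw [this] at h1
  simp [e0w] at h1
  omega

/-- crossing the edge with letter `i` in the bipartite double Cayley graph -/
def step {d r : ℕ} (i : Fin d) :
    Equiv.Perm (Word d r) ⊕ Equiv.Perm (Word d r) → Equiv.Perm (Word d r) ⊕ Equiv.Perm (Word d r)
  | Sum.inl g => Sum.inr (pi' i * g)
  | Sum.inr g => Sum.inl (pi' i * g)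

/-- forget the side -/
def tau {d r : ℕ} : Equiv.Perm (Word d r) ⊕ Equiv.Perm (Word d r) → Equiv.Perm (Word d r)
  | Sum.inl g => g
  | Sum.inr g => g

lemma tau_step {d r : ℕ} (i : Fin d) (u : Equiv.Perm (Word d r) ⊕ Equiv.Perm (Word d r)) :
    tau (step i u) = pi' i * tau u := by
  rcases u with g | g <;> rfl

lemma step_step {d r : ℕ} (i : Fin d) (u : Equiv.Perm (Word d r) ⊕ Equiv.Perm (Word d r)) :
    step i (step i u) = u := by
  rcases u with g | g <;> simp [step, ← mul_assoc, pi_sq]

lemma closed_walk {d r m : ℕ} (u : ℕ → Equiv.Perm (Word d r) ⊕ Equiv.Perm (Word d r))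
    (s : ℕ → Fin d) (hm : 1 ≤ m) (hu : ∀ j < m, u (j + 1) = step (s j) (u j))
    (hs : ∀ j, j + 1 < m → s j ≠ s (j + 1)) (hcl : u m = u 0) : r < m := by
  by_contra hcon
  apply walk (fun j => tau (u j)) s m hm (by omega) _ hs
  · exact congrArg tau hcl
  · intro j hj
    show tau (u (j + 1)) = pi' (s j) * tau (u j)
    rw [hu j hj, tau_step]

end Words

namespace MGraph

variable {V E : Type}

lemma rotate (G : MGraph V E) {l : ℕ} {v : ℕ → V} (inj : ∀ i < l, ∀ j < l, v i = v j → i = j)
    (adj : ∀ i < l, ∃ e, G.ends e = s(v i, v ((i + 1) % l))) (i : ℕ) (hl : 0 < l) :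
    (∀ j < l, ∀ j' < l, v ((i + j) % l) = v ((i + j') % l) → j = j') ∧
    (∀ j < l, ∃ e, G.ends e = s(v ((i + j) % l), v ((i + (j + 1) % l) % l))) := by
  constructor
  · intro j hj j' hj' h
    have h1 := inj _ (Nat.mod_lt _ hl) _ (Nat.mod_lt _ hl) h
    have h2 : i + j ≡ i + j' [MOD l] := h1
    have h3 : j ≡ j' [MOD l] := Nat.ModEq.add_left_cancel' i h2
    have h4 : j % l = j' % l := h3
    rwa [Nat.mod_eq_of_lt hj, Nat.mod_eq_of_lt hj'] at h4
  · intro j hj
    obtain ⟨e, he⟩ := adj ((i + j) % l) (Nat.mod_lt _ hl)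
    refine ⟨e, ?_⟩
    rw [he]
    congr 2
    rw [Nat.add_mod_mod, Nat.mod_add_mod, add_assoc]

/-- A `d`-regular bipartite graph of large girth with one edge subdivided. -/
noncomputable def sub (d r : ℕ) (i0 : Fin d) :
    MGraph (Option (Equiv.Perm (Word d r) ⊕ Equiv.Perm (Word d r)))
      (Option (Equiv.Perm (Word d r) × Fin d)) where
  ends e := by
    classical
    exact match e with
    | none => s(none, some (Sum.inr (pi' i0)))
    | some (g, i) => if g = 1 ∧ i = i0 then s(some (Sum.inl 1), none) else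
        s(some (Sum.inl g), some (Sum.inr (pi' i * g)))
  loopless := by
    classical
    rintro (_ | ⟨g, i⟩) h
    · simp at h
    · dsimp only at h
      split_ifs at h <;> simp at h

section Sub

variable {d r : ℕ} (i0 : Fin d)

lemma sub_none : (sub d r i0).ends none = s(none, some (Sum.inr (pi' i0))) := rfl

lemma sub_base : (sub d r i0).ends (some (1, i0)) = s(some (Sum.inl 1), none) := by
  classical
  simp [sub]

lemma sub_some (g : Equiv.Perm (Word d r)) (i : Fin d) (h : ¬ (g = 1 ∧ i = i0)) :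
    (sub d r i0).ends (some (g, i)) = s(some (Sum.inl g), some (Sum.inr (pi' i * g))) := by
  classical
  simp only [sub]
  rw [if_neg h]

lemma sub_adj_some {u w : Equiv.Perm (Word d r) ⊕ Equiv.Perm (Word d r)}
    {e : Option (Equiv.Perm (Word d r) × Fin d)}
    (h : (sub d r i0).ends e = s(some u, some w)) :
    ∃ i, w = step i u ∧ (i = i0 → u ≠ Sum.inl 1 ∧ w ≠ Sum.inl 1) := by
  rcases e with _ | ⟨g, i⟩
  · rw [sub_none, Sym2.eq_iff] at h
    simp at h
  · by_cases hg : g = 1 ∧ i = i0
    · rw [hg.1, hg.2, sub_base, Sym2.eq_iff] at h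
      simp at h
    · rw [sub_some i0 g i hg, Sym2.eq_iff] at h
      simp only [Option.some.injEq] at h
      rcases h with ⟨h1, h2⟩ | ⟨h1, h2⟩
      · refine ⟨i, ?_, ?_⟩
        · rw [← h1, ← h2]; rfl
        · intro hi
          rw [← h1, ← h2]
          refine ⟨fun h => ?_, by simp⟩
          simp only [Sum.inl.injEq] at h
          exact hg ⟨h, hi⟩
      · refine ⟨i, ?_, ?_⟩
        · rw [← h1, ← h2]
          simp [step, ← mul_assoc, pi_sq]
        · intro hi
          rw [← h1, ← h2]
          refine ⟨by simp, fun h => ?_⟩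
          simp only [Sum.inl.injEq] at h
          exact hg ⟨h, hi⟩

lemma sub_adj_none {w : Equiv.Perm (Word d r) ⊕ Equiv.Perm (Word d r)}
    {e : Option (Equiv.Perm (Word d r) × Fin d)}
    (h : (sub d r i0).ends e = s(none, some w)) : w = Sum.inl 1 ∨ w = step i0 (Sum.inl 1) := by
  rcases e with _ | ⟨g, i⟩
  · rw [sub_none, Sym2.eq_iff] at h
    simp only [true_and, Option.some.injEq, reduceCtorEq, false_and, or_false] at h
    right
    rw [← h]
    simp [step]
  · by_cases hg : g = 1 ∧ i = i0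
    · rw [hg.1, hg.2, sub_base, Sym2.eq_iff] at h
      simp only [reduceCtorEq, false_and, Option.some.injEq, and_true, false_or] at h
      left
      exact h.symm
    · rw [sub_some i0 g i hg, Sym2.eq_iff] at h
      simp at h

lemma sub_cycle {l : ℕ} (hl : 3 ≤ l) (h : (sub d r i0).HasCycle l) : r < l := by
  obtain ⟨v, inj, adj⟩ := h
  by_cases hnone : ∃ i < l, v i = none
  · obtain ⟨i, hi, hvi⟩ := hnone
    obtain ⟨inj', adj'⟩ := (sub d r i0).rotate inj adj i (by omega)
    set v' : ℕ → Option (Equiv.Perm (Word d r) ⊕ Equiv.Perm (Word d r)) :=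
      fun j => v ((i + j) % l) with hv'
    have inj2 : ∀ j < l, ∀ j' < l, v' j = v' j' → j = j' := inj'
    have adj2 : ∀ j < l, ∃ e, (sub d r i0).ends e = s(v' j, v' ((j + 1) % l)) := adj'
    have h0 : v' 0 = none := by
      simp only [hv', add_zero, Nat.mod_eq_of_lt hi, hvi]
    have hu : ∀ j, ∃ u, j + 1 < l → v' (j + 1) = some u := by
      intro j
      by_cases hj : j + 1 < l
      · rcases hx : v' (j + 1) with _ | u
        · have := inj2 _ hj 0 (by omega) (by rw [hx, h0])
          omega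
        · exact ⟨u, fun _ => rfl⟩
      · exact ⟨Sum.inl 1, fun h => absurd h hj⟩
    choose u hu using hu
    have hstep : ∀ j, ∃ i', j + 2 < l → u (j + 1) = step i' (u j) ∧
        (i' = i0 → u j ≠ Sum.inl 1 ∧ u (j + 1) ≠ Sum.inl 1) := by
      intro j
      by_cases hj : j + 2 < l
      · obtain ⟨e, he⟩ := adj2 (j + 1) (by omega)
        rw [Nat.mod_eq_of_lt (by omega), hu j (by omega), hu (j + 1) (by omega)] at he
        obtain ⟨i', h1, h2⟩ := sub_adj_some i0 he
        exact ⟨i', fun _ => ⟨h1, h2⟩⟩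
      · exact ⟨i0, fun h => absurd h hj⟩
    choose s hs using hstep
    have hu0 : u 0 = Sum.inl 1 ∨ u 0 = step i0 (Sum.inl 1) := by
      obtain ⟨e, he⟩ := adj2 0 (by omega)
      rw [Nat.mod_eq_of_lt (by omega), h0, hu 0 (by omega)] at he
      exact sub_adj_none i0 he
    have hul : u (l - 2) = Sum.inl 1 ∨ u (l - 2) = step i0 (Sum.inl 1) := by
      obtain ⟨e, he⟩ := adj2 (l - 1) (by omega)
      rw [show l - 1 + 1 = l by omega, Nat.mod_self, h0] at he
      have h1 := hu (l - 2) (by omega)
      rw [show l - 2 + 1 = l - 1 by omega] at h1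
      rw [h1, Sym2.eq_swap] at he
      exact sub_adj_none i0 he
    have uinj : ∀ j j', j + 1 < l → j' + 1 < l → u j = u j' → j = j' := by
      intro j j' hj hj' h
      have := inj2 _ hj _ hj' (by rw [hu j hj, hu j' hj', h])
      omega
    have hne : u 0 ≠ u (l - 2) := by
      intro h
      have := uinj 0 (l - 2) (by omega) (by omega) h
      omega
    have hback : u 0 = step i0 (u (l - 2)) := by
      rcases hu0 with h1 | h1 <;> rcases hul with h2 | h2
      · exact absurd (h1.trans h2.symm) hne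
      · rw [h1, h2, step_step]
      · rw [h1, h2]
      · exact absurd (h1.trans h2.symm) hne
    have hres := closed_walk (m := l - 1) (fun j => if j = l - 1 then u 0 else u j)
      (fun j => if j = l - 2 then i0 else s j) (by omega) (by
        intro j hj
        by_cases hjl : j = l - 2
        · subst hjl
          rw [if_pos (by omega), if_pos rfl, if_neg (by omega)]
          exact hback
        · rw [if_neg (by omega), if_neg hjl, if_neg (by omega)]
          exact (hs j (by omega)).1) (by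
        intro j hj
        rw [if_neg (by omega)]
        by_cases hjl : j + 1 = l - 2
        · rw [if_pos hjl]
          intro hsi
          obtain ⟨h1, h2⟩ := hs j (by omega)
          rw [hsi] at h1
          have h3 : u j = u 0 := by
            rw [hback, ← hjl, h1, step_step]
          have h4 := uinj j 0 (by omega) (by omega) h3
          have h5 := h2 hsi
          subst h4
          rcases hu0 with h6 | h6
          · exact h5.1 h6
          · rcases hul with h7 | h7
            · rw [← hjl] at h7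
              exact h5.2 h7
            · exact hne (h6.trans h7.symm)
        · rw [if_neg hjl]
          intro hsi
          obtain ⟨h1, _⟩ := hs j (by omega)
          obtain ⟨h2, _⟩ := hs (j + 1) (by omega)
          rw [← hsi, h1, step_step] at h2
          have := uinj _ _ (by omega) (by omega) h2
          omega) (by
        rw [if_pos rfl, if_neg (by omega)])
    omega
  · push Not at hnone
    have hu : ∀ j, ∃ u, j < l → v j = some u := by
      intro j
      by_cases hj : j < l
      · rcases hx : v j with _ | u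
        · exact absurd hx (hnone j hj)
        · exact ⟨u, fun _ => rfl⟩
      · exact ⟨Sum.inl 1, fun h => absurd h hj⟩
    choose u hu using hu
    have hstep : ∀ j, ∃ i', j < l → u ((j + 1) % l) = step i' (u j) := by
      intro j
      by_cases hj : j < l
      · obtain ⟨e, he⟩ := adj j hj
        rw [hu j hj, hu _ (Nat.mod_lt _ (by omega))] at he
        obtain ⟨i', h1, _⟩ := sub_adj_some i0 he
        exact ⟨i', fun _ => h1⟩
      · exact ⟨i0, fun h => absurd h hj⟩
    choose s hs using hstep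
    have uinj : ∀ j j', j < l → j' < l → u j = u j' → j = j' := by
      intro j j' hj hj' h
      exact inj _ hj _ hj' (by rw [hu j hj, hu j' hj', h])
    apply closed_walk (m := l) (fun j => u (j % l)) s (by omega)
    · intro j hj
      rw [Nat.mod_eq_of_lt hj]
      exact hs j hj
    · intro j hj hsj
      have h1 := hs j (by omega)
      have h2 := hs (j + 1) hj
      rw [Nat.mod_eq_of_lt hj] at h1
      rw [← hsj, h1, step_step] at h2
      have h3 := uinj _ _ (Nat.mod_lt _ (by omega)) (by omega) h2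
      rcases Nat.lt_or_ge (j + 1 + 1) l with h4 | h4
      · rw [Nat.mod_eq_of_lt h4] at h3
        omega
      · rw [show j + 1 + 1 = l by omega, Nat.mod_self] at h3
        omega
    · rw [Nat.mod_self, Nat.mod_eq_of_lt (by omega)]

lemma sub_card : Nat.card (Option (Equiv.Perm (Word d r) ⊕ Equiv.Perm (Word d r))) =
    2 * Nat.card (Equiv.Perm (Word d r)) + 1 := by
  rw [Finite.card_option, Nat.card_sum]
  ring

lemma sub_card_edges : Nat.card (Option (Equiv.Perm (Word d r) × Fin d)) =
    d * Nat.card (Equiv.Perm (Word d r)) + 1 := by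
  rw [Finite.card_option, Nat.card_prod]
  simp [mul_comm]

lemma sub_mem_inl (g : Equiv.Perm (Word d r)) (e : Option (Equiv.Perm (Word d r) × Fin d)) :
    some (Sum.inl g) ∈ (sub d r i0).ends e ↔ ∃ i, e = some (g, i) := by
  rcases e with _ | ⟨h, i⟩
  · rw [sub_none]; simp
  · by_cases hg : h = 1 ∧ i = i0
    · rw [hg.1, hg.2, sub_base]
      simp only [Sym2.mem_iff, Option.some.injEq, Sum.inl.injEq, reduceCtorEq, or_false,
        Prod.mk.injEq]
      constructor
      · rintro rfl
        exact ⟨i0, rfl, rfl⟩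
      · rintro ⟨_, h1, _⟩
        exact h1.symm
    · rw [sub_some i0 h i hg]
      simp only [Sym2.mem_iff, Option.some.injEq, Sum.inl.injEq, reduceCtorEq, or_false,
        Prod.mk.injEq]
      constructor
      · rintro rfl
        exact ⟨i, rfl, rfl⟩
      · rintro ⟨_, h1, _⟩
        exact h1.symm

lemma sub_mem_inr {h : Equiv.Perm (Word d r)} {g : Equiv.Perm (Word d r)} {i : Fin d}
    (hm : some (Sum.inr h) ∈ (sub d r i0).ends (some (g, i))) :
    h = pi' i * g ∧ ¬ (g = 1 ∧ i = i0) := by
  by_cases hg : g = 1 ∧ i = i0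
  · rw [hg.1, hg.2, sub_base] at hm
    simp at hm
  · rw [sub_some i0 g i hg] at hm
    simp only [Sym2.mem_iff, Option.some.injEq, reduceCtorEq, Sum.inr.injEq, false_or] at hm
    exact ⟨hm, hg⟩

lemma sub_mem_none {g : Equiv.Perm (Word d r)} {i : Fin d}
    (hm : none ∈ (sub d r i0).ends (some (g, i))) : g = 1 ∧ i = i0 := by
  by_contra hg
  rw [sub_some i0 g i hg] at hm
  simp at hm

lemma sub_degree_inl (g : Equiv.Perm (Word d r)) :
    (sub d r i0).degree (some (Sum.inl g)) = d := by
  unfold degree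
  have h1 : Nat.card {e // some (Sum.inl g) ∈ (sub d r i0).ends e} = Nat.card (Fin d) := by
    refine Nat.card_congr (Equiv.ofBijective (fun i : Fin d =>
      (⟨some (g, i), (sub_mem_inl i0 g _).mpr ⟨i, rfl⟩⟩ :
        {e // some (Sum.inl g) ∈ (sub d r i0).ends e})) ⟨?_, ?_⟩).symm
    · intro i j hij
      simpa using hij
    · rintro ⟨e, he⟩
      obtain ⟨i, rfl⟩ := (sub_mem_inl i0 g e).mp he
      exact ⟨i, rfl⟩
  rw [h1]
  simp

lemma sub_degree_le (hd : 2 ≤ d) (u) : (sub d r i0).degree u ≤ d := by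
  classical
  rcases u with _ | (g | h)
  · refine le_trans ?_ hd
    unfold degree
    have hinj : Function.Injective (fun x : {e // none ∈ (sub d r i0).ends e} =>
        (x.1.isSome : Bool)) := by
      rintro ⟨_ | ⟨g, i⟩, he⟩ ⟨_ | ⟨g', i'⟩, he'⟩ h
      · rfl
      · simp at h
      · simp at h
      · have h1 := sub_mem_none i0 he
        have h2 := sub_mem_none i0 he'
        obtain ⟨rfl, rfl⟩ := h1
        obtain ⟨rfl, rfl⟩ := h2
        rfl
    have := Nat.card_le_card_of_injective _ hinj
    simpa using this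
  · rw [sub_degree_inl]
  · unfold degree
    have hinj : Function.Injective (fun x : {e // some (Sum.inr h) ∈ (sub d r i0).ends e} =>
        (match x.1 with | none => i0 | some (_, i) => i)) := by
      rintro ⟨_ | ⟨g, i⟩, he⟩ ⟨_ | ⟨g', i'⟩, he'⟩ hii
      · rfl
      · exfalso
        simp only at hii
        subst hii
        rw [sub_none] at he
        simp only [Sym2.mem_iff, reduceCtorEq, Option.some.injEq, Sum.inr.injEq, false_or] at he
        obtain ⟨h1, h2⟩ := sub_mem_inr i0 he'
        apply h2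
        refine ⟨?_, rfl⟩
        rw [he] at h1
        exact (mul_eq_left.mp h1.symm)
      · exfalso
        simp only at hii
        subst hii
        rw [sub_none] at he'
        simp only [Sym2.mem_iff, reduceCtorEq, Option.some.injEq, Sum.inr.injEq, false_or] at he'
        obtain ⟨h1, h2⟩ := sub_mem_inr i he
        apply h2
        refine ⟨?_, rfl⟩
        rw [he'] at h1
        exact (mul_eq_left.mp h1.symm)
      · simp only at hii
        subst hii
        obtain ⟨h1, _⟩ := sub_mem_inr i0 he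
        obtain ⟨h2, _⟩ := sub_mem_inr i0 he'
        have : g = g' := mul_left_cancel (h1.symm.trans h2)
        subst this
        rfl
    have := Nat.card_le_card_of_injective _ hinj
    simpa using this

lemma sub_mult_le (hr : 1 ≤ r) (u w) : (sub d r i0).mult u w ≤ 1 := by
  unfold mult
  have hsub : Subsingleton {e // (sub d r i0).ends e = s(u, w)} := by
    refine ⟨?_⟩
    have key : ∀ e e', (sub d r i0).ends e = (sub d r i0).ends e' → e = e' := by
      rintro (_ | ⟨g, i⟩) (_ | ⟨g', i'⟩) h
      · rfl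
      · exfalso
        have h1 : none ∈ (sub d r i0).ends (some (g', i')) := by rw [← h, sub_none]; simp
        obtain ⟨rfl, rfl⟩ := sub_mem_none i0 h1
        rw [sub_none, sub_base, Sym2.eq_iff] at h
        simp at h
      · exfalso
        have h1 : none ∈ (sub d r i0).ends (some (g, i)) := by rw [h, sub_none]; simp
        obtain ⟨rfl, rfl⟩ := sub_mem_none i0 h1
        rw [sub_none, sub_base, Sym2.eq_iff] at h
        simp at h
      · by_cases hg : g = 1 ∧ i = i0
        · have h1 : none ∈ (sub d r i0).ends (some (g', i')) := by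
            rw [← h, hg.1, hg.2, sub_base]; simp
          have h2 := sub_mem_none i0 h1
          rw [hg.1, hg.2, h2.1, h2.2]
        · by_cases hg' : g' = 1 ∧ i' = i0
          · have h1 : none ∈ (sub d r i0).ends (some (g, i)) := by
              rw [h, hg'.1, hg'.2, sub_base]; simp
            exact absurd (sub_mem_none i0 h1) hg
          · rw [sub_some i0 g i hg, sub_some i0 g' i' hg', Sym2.eq_iff] at h
            simp only [Option.some.injEq, Sum.inl.injEq, Sum.inr.injEq, reduceCtorEq, false_and,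
              or_false] at h
            obtain ⟨rfl, h2⟩ := h
            have := pi_inj hr (mul_right_cancel h2)
            rw [this]
    rintro ⟨e, he⟩ ⟨e', he'⟩
    exact Subtype.ext (key e e' (he.trans he'.symm))
  exact Finite.card_le_one_iff_subsingleton.mpr hsub

lemma sub_colorable : (sub d r i0).Colorable (d + 1) := by
  refine ⟨fun e => match e with | none => Fin.last d | some (_, i) => i.castSucc, ?_⟩
  rintro (_ | ⟨g, i⟩) (_ | ⟨g', i'⟩) hne ⟨v, hv, hw⟩ h
  · exact hne rfl
  · exact absurd h.symm (Fin.castSucc_lt_last i').ne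
  · exact absurd h (Fin.castSucc_lt_last i).ne
  · have hii : i = i' := Fin.castSucc_injective _ h
    subst hii
    apply hne
    rcases v with _ | (u | u)
    · have h1 := sub_mem_none i0 hv
      have h2 := sub_mem_none i0 hw
      rw [h1.1, h2.1]
    · obtain ⟨_, h1⟩ := (sub_mem_inl i0 u _).mp hv
      obtain ⟨_, h2⟩ := (sub_mem_inl i0 u _).mp hw
      simp only [Option.some.injEq, Prod.mk.injEq] at h1 h2
      rw [h1.1, h2.1]
    · obtain ⟨h1, _⟩ := sub_mem_inr i0 hv
      obtain ⟨h2, _⟩ := sub_mem_inr i0 hw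
      rw [mul_left_cancel (h1.symm.trans h2)]

lemma sub_chromatic : (sub d r i0).HasChromaticIndex (d + 1) := by
  refine ⟨sub_colorable i0, ?_⟩
  intro j hj
  have h1 := (sub d r i0).overfull hj sub_card
  rw [sub_card_edges] at h1
  have h2 : 0 < Nat.card (Equiv.Perm (Word d r)) := Nat.card_pos
  by_contra hcon
  have h3 : j ≤ d := by omega
  have h4 : j * Nat.card (Equiv.Perm (Word d r)) ≤ d * Nat.card (Equiv.Perm (Word d r)) :=
    Nat.mul_le_mul_right _ h3
  omega

end Sub

end MGraph

/-- The graphs with maximum degree `Δ`, maximum multiplicity `μ` and girth `g`. -/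
def InClass {V E : Type} (G : MGraph V E) (Δ μ g : ℕ) : Prop :=
  G.HasMaxDegree Δ ∧ G.HasMaxMult μ ∧ G.HasGirth g

/-- The chromatic indices of the finite graphs with parameters `Δ, μ, g`;
`st(Δ, μ, g)` is the greatest element of this set. -/
def chromSet (Δ μ g : ℕ) : Set ℕ :=
  {k | ∃ (V E : Type) (_ : Finite V) (_ : Finite E) (G : MGraph V E),
    InClass G Δ μ g ∧ G.HasChromaticIndex k}

/-- Steffen's bound. -/
noncomputable def steffen (Δ μ g : ℕ) : ℕ := Δ + ⌈(μ : ℚ) / ((g / 2 : ℕ) : ℚ)⌉₊

open MGraph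

lemma assemble {Δ μ g K : ℕ} (hg : 3 ≤ g) (hμ : 1 ≤ μ) (hμΔ : μ ≤ Δ) (hΔ : 2 ≤ Δ)
    {V E : Type} [Finite V] [Finite E] (H : MGraph V E) (hdeg : ∀ u, H.degree u ≤ Δ)
    (hatt : ∃ u, H.degree u = Δ) (hmult : ∀ u w, u ≠ w → H.mult u w ≤ μ)
    (hcyc : ∀ l, 3 ≤ l → H.HasCycle l → g ≤ l) (hχ : H.HasChromaticIndex K) (hK : Δ + 1 ≤ K) :
    K ∈ chromSet Δ μ g := by
  classical
  have : NeZero g := ⟨by omega⟩
  set C := fat g hg (fun _ => 1) with hC
  have hCdeg : ∀ u, C.degree u ≤ 2 := by
    intro u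
    rw [hC, fat_degree]
  refine ⟨(V ⊕ ZMod g) ⊕ Bool, (E ⊕ ((_ : ZMod g) × Fin 1)) ⊕ Fin μ, inferInstance, inferInstance,
    (H.sum C).sum (bond μ), ⟨⟨?_, ?_⟩, ⟨?_, ?_⟩, ⟨?_, ?_⟩⟩, ?_, ?_⟩
  · exact sum_degree_le _ _ (sum_degree_le _ _ hdeg (fun u => (hCdeg u).trans hΔ))
      (fun u => by rw [bond_degree]; exact hμΔ)
  · obtain ⟨u, hu⟩ := hatt
    exact ⟨Sum.inl (Sum.inl u), by rw [sum_degree_inl, sum_degree_inl, hu]⟩
  · exact sum_mult_le _ _ (sum_mult_le _ _ hmult
      (fun u w _ => (fat_mult_le hg _ (fun _ => le_rfl) u w).trans hμ))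
      (fun u w _ => bond_mult_le μ u w)
  · exact ⟨Sum.inr false, Sum.inr true, by simp, by rw [sum_mult_inr, bond_mult]⟩
  · exact ⟨hg, sum_cycle_inl _ _ (sum_cycle_inr _ _ (fat_cycle_self hg _ (fun _ => le_rfl)))⟩
  · rintro l ⟨hl, hc⟩
    rcases sum_cycle _ _ (by omega) hc with hc | hc
    · rcases sum_cycle _ _ (by omega) hc with hc | hc
      · exact hcyc l hl hc
      · exact fat_cycle hg _ hl hc
    · exact absurd hc (bond_cycle μ hl)
  · show ((H.sum C).sum (bond μ)).Colorable K
    rw [sum_colorable, sum_colorable]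
    refine ⟨⟨hχ.1, ?_⟩, bond_colorable (by omega)⟩
    apply goldberg (Δ := 2) (p := 1) (k := K) (by omega) (by omega) _ _ C rfl hCdeg
    intro l hl _ _
    omega
  · rintro j hj
    have hj' : ((H.sum C).sum (bond μ)).Colorable j := hj
    rw [sum_colorable, sum_colorable] at hj'
    exact hχ.2 hj'.1.1

lemma fat_alt_degree {p : ℕ} (hn : 3 ≤ 2 * p + 1) (Δ : ℕ) (v : ZMod (2 * p + 1)) :
    (fat (2 * p + 1) hn (alt (2 * p + 1) (Δ / 2) ((Δ + 1) / 2))).degree v =
      if v = 0 then 2 * (Δ / 2) else Δ := by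
  have : NeZero (2 * p + 1) := ⟨by omega⟩
  have : Fact (1 < 2 * p + 1) := ⟨by omega⟩
  rw [fat_degree]
  split_ifs with h
  · subst h
    have h1 : (0 - 1 : ZMod (2 * p + 1)).val = 2 * p := by
      rw [zero_sub]
      exact ZMod.val_neg_one (2 * p)
    unfold alt
    rw [h1, ZMod.val_zero, if_pos (by omega), if_pos (by omega)]
    ring
  · have h0 : v.val ≠ 0 := fun h' => h ((ZMod.val_eq_zero v).mp h')
    have h1 : (v - 1).val = v.val - 1 := by
      have hone : (1 : ZMod (2 * p + 1)).val = 1 := ZMod.val_one _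
      rw [ZMod.val_sub (by rw [hone]; omega), hone]
    unfold alt
    rw [h1]
    split_ifs <;> omega

/-- For `Δ ≤ 2μ` Steffen's bound is attained exactly when
`2⌊g/2⌋(⌈μ/⌊g/2⌋⌉ - 1) + 2 ≤ Δ`; for `μ ≤ ⌊g/2⌋` there is always a graph with that
chromatic index. -/
theorem result (Δ μ g : ℕ) (hg : 3 ≤ g) (hμ : 1 ≤ μ) (hμΔ : μ ≤ Δ) (hΔ : 2 ≤ Δ) :
    (Δ ≤ 2 * μ →
      (IsGreatest (chromSet Δ μ g) (steffen Δ μ g) ↔
        2 * (g / 2) * (⌈(μ : ℚ) / ((g / 2 : ℕ) : ℚ)⌉₊ - 1) + 2 ≤ Δ)) ∧
    (μ ≤ g / 2 → steffen Δ μ g ∈ chromSet Δ μ g) := by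
  classical
  set p := g / 2 with hp
  have hp1 : 1 ≤ p := by omega
  have hp0 : (0 : ℚ) < (p : ℚ) := by exact_mod_cast hp1
  set t := ⌈(μ : ℚ) / (p : ℚ)⌉₊ with ht
  have hst : steffen Δ μ g = Δ + t := rfl
  have ht1 : μ ≤ p * t := by
    have h1 : (μ : ℚ) / p ≤ t := Nat.le_ceil _
    rw [div_le_iff₀ hp0] at h1
    have : (μ : ℚ) ≤ ((p * t : ℕ) : ℚ) := by push_cast; linarith
    exact_mod_cast this
  have ht0 : 1 ≤ t := by
    by_contra h
    have : t = 0 := by omega
    rw [this] at ht1
    omega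
  have ht2 : p * (t - 1) < μ := by
    have h1 : (((t - 1 : ℕ)) : ℚ) < (μ : ℚ) / p := by
      rw [← Nat.lt_ceil, ← ht]
      omega
    rw [lt_div_iff₀ hp0] at h1
    have : ((p * (t - 1) : ℕ) : ℚ) < (μ : ℚ) := by
      push_cast [Nat.cast_sub ht0] at h1 ⊢
      linarith
    exact_mod_cast this
  have hgp : g ≤ 2 * p + 1 := by omega
  have hpg : 2 * p ≤ g := by omega
  rw [hst]
  constructor
  · intro hΔμ
    have upper : ∀ (V E : Type) (_ : Finite V) (_ : Finite E) (G : MGraph V E) (k : ℕ),
        InClass G Δ μ g → Δ + 1 ≤ k → Δ < 2 * p * (k - Δ) + 2 → G.Colorable k := by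
      intro V E _ _ G k hG hk h1
      refine goldberg hk h1 _ E G rfl hG.1.1 ?_
      intro l hl hodd hc
      have := hG.2.2.2 ⟨hl, hc⟩
      omega
    have hupp : ∀ k ∈ chromSet Δ μ g, k ≤ Δ + t := by
      rintro k ⟨V, E, hV, hE, G, hG, hχ⟩
      apply hχ.2
      apply upper V E hV hE G (Δ + t) hG (by omega)
      rw [Nat.add_sub_cancel_left]
      have : 2 * p * t = 2 * (p * t) := by ring
      omega
    constructor
    · intro hgr
      by_contra hcon
      push Not at hcon
      obtain ⟨V, E, hV, hE, G, hG, hχ⟩ := hgr.1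
      have h1 : 2 ≤ t := by
        by_contra h
        have : t - 1 = 0 := by omega
        rw [this] at hcon
        omega
      have h2 := upper V E hV hE G (Δ + t - 1) hG (by omega) (by
        rw [show Δ + t - 1 - Δ = t - 1 by omega]; exact hcon)
      have h3 := hχ.2 h2
      omega
    · intro hcond
      refine ⟨?_, hupp⟩
      have hn : 3 ≤ 2 * p + 1 := by omega
      have : NeZero (2 * p + 1) := ⟨by omega⟩
      have : Fact (1 < 2 * p + 1) := ⟨by omega⟩
      set m := alt (2 * p + 1) (Δ / 2) ((Δ + 1) / 2) with hm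
      have hmle : ∀ i, m i ≤ μ := by
        intro i
        simp only [hm, alt]
        split_ifs <;> omega
      have hdeg : ∀ u, (fat (2 * p + 1) hn m).degree u ≤ Δ := by
        intro u
        rw [hm, fat_alt_degree]
        split_ifs <;> omega
      apply assemble hg hμ hμΔ hΔ (fat (2 * p + 1) hn m) hdeg
      · refine ⟨1, ?_⟩
        rw [hm, fat_alt_degree, if_neg one_ne_zero]
      · exact fun u w _ => fat_mult_le hn m hmle u w
      · intro l hl hc
        have := fat_cycle hn m hl hc
        omega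
      · constructor
        · apply goldberg (Δ := Δ) (p := p) (k := Δ + t) (by omega) ?_ _ _ _ rfl hdeg
          · intro l hl _ hc
            exact fat_cycle hn m hl hc
          · rw [Nat.add_sub_cancel_left]
            have : 2 * p * t = 2 * (p * t) := by ring
            omega
        · intro j hj
          have h1 := (fat (2 * p + 1) hn m).overfull (p := p) hj (by simp)
          have h2 : Nat.card ((i : ZMod (2 * p + 1)) × Fin (m i)) =
              (p + 1) * (Δ / 2) + p * ((Δ + 1) / 2) := by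
            rw [Nat.card_eq_fintype_card, Fintype.card_sigma]
            simp only [Fintype.card_fin]
            exact alt_sum p _ _
          rw [h2] at h1
          by_contra hcon
          push Not at hcon
          have h3 : j ≤ Δ + (t - 1) := by omega
          have h4 : j * p ≤ (Δ + (t - 1)) * p := Nat.mul_le_mul_right _ h3
          have h5 : (Δ + (t - 1)) * p = Δ * p + p * (t - 1) := by ring
          have h6 : (p + 1) * (Δ / 2) + p * ((Δ + 1) / 2) = p * (Δ / 2 + (Δ + 1) / 2) + Δ / 2 := by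
            ring
          have h7 : Δ / 2 + (Δ + 1) / 2 = Δ := by omega
          rw [h7] at h6
          have h8 : 2 * p * (t - 1) = 2 * (p * (t - 1)) := by ring
          have h9 : p * Δ = Δ * p := by ring
          omega
      · omega
  · intro hμp
    have htt : t = 1 := by
      by_contra h
      have h2 : 2 ≤ t := by omega
      have h3 : p * 1 ≤ p * (t - 1) := Nat.mul_le_mul_left _ (by omega)
      omega
    rw [htt]
    have i0 : Fin Δ := ⟨0, by omega⟩
    apply assemble hg hμ hμΔ hΔ (sub Δ g i0) (sub_degree_le i0 hΔ)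
    · exact ⟨some (Sum.inl 1), sub_degree_inl i0 1⟩
    · exact fun u w _ => (sub_mult_le i0 (by omega) u w).trans hμ
    · intro l hl hc
      exact (sub_cycle i0 hl hc).le
    · exact sub_chromatic i0
    · omega

end Pool.Agent.Results.MP_633d19_co.SmallDegree
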